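import Pool.Agent.Helper66.AF.Fan2

/-!
Degree one implies completeness of a fan, part 3: the star of a ray, uniqueness.
-/

set_option autoImplicit false

namespace Pool.Agent.Helper66.AF

open Filter Topology

/-- twice the multiplicity of `y` in the wedge at `u` spanned by `a, b` -/
noncomputable def wt2 (u a b y : E3) : ℤ := by
  classical
  exact if 0 < det3 u y b ∧ 0 < det3 u a y then 2 else if 0 ≤ det3 u y b ∧ 0 ≤ det3 u a y then 1 else 0

lemma wt2_open {u a b z : E3} (h1 : 0 < det3 u z b) (h2 : 0 < det3 u a z) : wt2 u a b z = 2 := by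
  unfold wt2; rw [if_pos ⟨h1, h2⟩]

lemma wt2_mid {u a b z : E3} (h : ¬ (0 < det3 u z b ∧ 0 < det3 u a z)) (h1 : 0 ≤ det3 u z b)
    (h2 : 0 ≤ det3 u a z) : wt2 u a b z = 1 := by
  unfold wt2; rw [if_neg h, if_pos ⟨h1, h2⟩]

lemma wt2_out {u a b z : E3} (h' : ¬ (0 ≤ det3 u z b ∧ 0 ≤ det3 u a z)) : wt2 u a b z = 0 := by
  have h : ¬ (0 < det3 u z b ∧ 0 < det3 u a z) := fun h => h' ⟨h.1.le, h.2.le⟩
  unfold wt2; rw [if_neg h, if_neg h']

/-- `z` lies in the open half plane bounded by the line of `u` through `a` -/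
def InHalf (u a z : E3) : Prop := ∃ s t : ℝ, 0 < t ∧ z = s • u + t • a

noncomputable def half (z u a z' : E3) : ℤ := by
  classical
  exact if InHalf u a z then sg (det3 u a z') else 0

lemma inHalf_iff {u a b z : E3} (hD : 0 < det3 u a b) :
    InHalf u a z ↔ (0 < det3 u z b ∧ det3 u a z = 0) := by
  constructor
  · rintro ⟨s, t, ht, h⟩
    have h' : z = s • u + t • a + (0 : ℝ) • b := by rw [h]; simp
    rw [h', det_comb2, det_comb3]
    exact ⟨by positivity, by simp⟩
  · rintro ⟨h2, h3⟩
    refine ⟨det3 z a b / det3 u a b, det3 u z b / det3 u a b, by positivity, ?_⟩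
    have := cramer u a b z
    rw [h3, zero_smul, add_zero] at this
    have h4 : z = (det3 u a b)⁻¹ • (det3 u a b • z) := by
      rw [smul_smul, inv_mul_cancel₀ hD.ne', one_smul]
    rw [this, smul_add, smul_smul, smul_smul] at h4
    rw [div_eq_inv_mul, div_eq_inv_mul]
    exact h4

lemma inHalf_iff' {u a b z : E3} (hD : 0 < det3 u a b) :
    InHalf u b z ↔ (0 < det3 u a z ∧ det3 u z b = 0) := by
  constructor
  · rintro ⟨s, t, ht, h⟩
    have h' : z = s • u + (0 : ℝ) • a + t • b := by rw [h]; simp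
    rw [h', det_comb2, det_comb3]
    exact ⟨by positivity, by simp⟩
  · rintro ⟨h2, h3⟩
    refine ⟨det3 z a b / det3 u a b, det3 u a z / det3 u a b, by positivity, ?_⟩
    have := cramer u a b z
    rw [h3, zero_smul, add_zero] at this
    have h4 : z = (det3 u a b)⁻¹ • (det3 u a b • z) := by
      rw [smul_smul, inv_mul_cancel₀ hD.ne', one_smul]
    rw [this, smul_add, smul_smul, smul_smul] at h4
    rw [div_eq_inv_mul, div_eq_inv_mul]
    exact h4

lemma line_of_two {u a b z : E3} (hD : 0 < det3 u a b) (h2 : det3 u z b = 0)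
    (h3 : det3 u a z = 0) : ∃ t : ℝ, z = t • u := by
  refine ⟨det3 z a b / det3 u a b, ?_⟩
  have := cramer u a b z
  rw [h3, zero_smul, add_zero, h2, zero_smul, add_zero] at this
  have h4 : z = (det3 u a b)⁻¹ • (det3 u a b • z) := by
    rw [smul_smul, inv_mul_cancel₀ hD.ne', one_smul]
  rw [this, smul_smul] at h4
  rw [div_eq_inv_mul]
  exact h4

lemma local_wedge {u a b z : E3} (hD : 0 < det3 u a b) (hz : ∀ t : ℝ, z ≠ t • u) :
    ∀ᶠ z' in 𝓝 z, wt2 u a b z' - wt2 u a b z = half z u a z' - half z u b z' := by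
  classical
  have w1 := inHalf_iff (z := z) hD
  have w2 := inHalf_iff' (z := z) hD
  have c1 := (det_cont2 u b).continuousAt (x := z)
  have c2 := (det_cont3 u a).continuousAt (x := z)
  have P : ∀ {f : E3 → ℝ}, ContinuousAt f z → 0 < f z → ∀ᶠ z' in 𝓝 z, 0 < f z' :=
    fun hf h => hf.eventually (lt_mem_nhds h)
  have N : ∀ {f : E3 → ℝ}, ContinuousAt f z → f z < 0 → ∀ᶠ z' in 𝓝 z, f z' < 0 :=
    fun hf h => hf.eventually (gt_mem_nhds h)
  have neg : (det3 u z b < 0 ∨ det3 u a z < 0) →
      ∀ᶠ z' in 𝓝 z, wt2 u a b z' - wt2 u a b z = half z u a z' - half z u b z' := by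
    intro h
    have hout : ¬ (0 ≤ det3 u z b ∧ 0 ≤ det3 u a z) := by
      rintro ⟨h1, h2⟩
      rcases h with h | h <;> linarith
    have n1 : ¬ InHalf u a z := fun hw => by
      obtain ⟨q1, q2⟩ := w1.mp hw; rcases h with h | h <;> linarith
    have n2 : ¬ InHalf u b z := fun hw => by
      obtain ⟨q1, q2⟩ := w2.mp hw; rcases h with h | h <;> linarith
    have hev : ∀ᶠ z' in 𝓝 z, ¬ (0 ≤ det3 u z' b ∧ 0 ≤ det3 u a z') := by
      rcases h with h | h
      · filter_upwards [N c1 h] with z' hz' hin using absurd hin.1 (not_le.mpr hz')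
      · filter_upwards [N c2 h] with z' hz' hin using absurd hin.2 (not_le.mpr hz')
    filter_upwards [hev] with z' hz'
    rw [wt2_out hz', wt2_out hout]
    simp [half, n1, n2]
  rcases lt_trichotomy (det3 u z b) 0 with g1 | g1 | g1
  · exact neg (Or.inl g1)
  · rcases lt_trichotomy (det3 u a z) 0 with g2 | g2 | g2
    · exact neg (Or.inr g2)
    · exfalso
      obtain ⟨t, ht⟩ := line_of_two hD g1 g2
      exact hz t ht
    · have n1 : ¬ InHalf u a z := fun hw => by linarith [(w1.mp hw).1]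
      have y2 : InHalf u b z := w2.mpr ⟨g2, g1⟩
      have hz1 : wt2 u a b z = 1 := wt2_mid (fun h => by linarith [h.1]) g1.ge g2.le
      filter_upwards [P c2 g2] with z' h2
      simp only [half, n1, y2, if_true, if_false, hz1]
      have e : det3 u b z' = - det3 u z' b := by simp [det3]; ring
      rw [e, sg_neg]
      rcases lt_trichotomy (det3 u z' b) 0 with k | k | k
      · rw [wt2_out (fun h => by linarith [h.1])]; simp [sg, k, not_lt.mpr k.le]
      · rw [wt2_mid (fun h => by linarith [h.1]) k.ge h2.le]; simp [sg, k]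
      · rw [wt2_open k h2]; simp [sg, k]
  · rcases lt_trichotomy (det3 u a z) 0 with g2 | g2 | g2
    · exact neg (Or.inr g2)
    · have y1 : InHalf u a z := w1.mpr ⟨g1, g2⟩
      have n2 : ¬ InHalf u b z := fun hw => by linarith [(w2.mp hw).1]
      have hz1 : wt2 u a b z = 1 := wt2_mid (fun h => by linarith [h.2]) g1.le g2.ge
      filter_upwards [P c1 g1] with z' h1
      simp only [half, y1, n2, if_true, if_false, hz1, sub_zero]
      rcases lt_trichotomy (det3 u a z') 0 with k | k | k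
      · rw [wt2_out (fun h => by linarith [h.2])]; simp [sg, k, not_lt.mpr k.le]
      · rw [wt2_mid (fun h => by linarith [h.2]) h1.le k.ge]; simp [sg, k]
      · rw [wt2_open h1 k]; simp [sg, k]
    · have n1 : ¬ InHalf u a z := fun hw => by linarith [(w1.mp hw).2]
      have n2 : ¬ InHalf u b z := fun hw => by linarith [(w2.mp hw).2]
      have hz1 : wt2 u a b z = 2 := wt2_open g1 g2
      filter_upwards [P c1 g1, P c2 g2] with z' h1 h2
      rw [wt2_open h1 h2, hz1]
      simp [half, n1, n2]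

variable {V : Type*}

/-- twice the multiplicity of `y` in the wedge of `t` at the ray `u` -/
noncomputable def wtU (p : V → E3) (u : V) (t : V × V × V) (y : E3) : ℤ := by
  classical
  exact if t.1 = u then wt2 (p u) (p t.2.1) (p t.2.2) y
    else if t.2.1 = u then wt2 (p u) (p t.2.2) (p t.1) y
    else if t.2.2 = u then wt2 (p u) (p t.1) (p t.2.1) y else 0

/-- the contribution of the directed edge `e` -/
noncomputable def hU (p : V → E3) (u : V) (z z' : E3) (e : V × V) : ℤ := by
  classical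
  exact (if e.1 = u then half z (p u) (p e.2) z' else 0) - (if e.2 = u then half z (p u) (p e.1) z' else 0)

lemma hU_odd (p : V → E3) (u : V) (z z' : E3) (e : V × V) : hU p u z z' e.swap = - hU p u z z' e := by
  unfold hU
  simp only [Prod.fst_swap, Prod.snd_swap]
  ring

lemma det3_self12 (a c : E3) : det3 a a c = 0 := by simp [det3]; ring
lemma det3_self23 (a c : E3) : det3 a c c = 0 := by simp [det3]; ring
lemma det3_self13 (a c : E3) : det3 a c a = 0 := by simp [det3]; ring

lemma local_wtU {p : V → E3} {t : V × V × V} (hD : 0 < det3 (p t.1) (p t.2.1) (p t.2.2)) (u : V) {z : E3}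
    (hz : ∀ r : ℝ, z ≠ r • p u) :
    ∀ᶠ z' in 𝓝 z, wtU p u t z' - wtU p u t z = hU p u z z' (t.1, t.2.1) + hU p u z z' (t.2.1, t.2.2) +
      hU p u z z' (t.2.2, t.1) := by
  classical
  obtain ⟨a, b, c⟩ := t
  simp only at hD ⊢
  have hab : a ≠ b := by rintro rfl; rw [det3_self12] at hD; exact lt_irrefl _ hD
  have hbc : b ≠ c := by rintro rfl; rw [det3_self23] at hD; exact lt_irrefl _ hD
  have hac : a ≠ c := by rintro rfl; rw [det3_self13] at hD; exact lt_irrefl _ hD
  by_cases ha : a = u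
  · subst ha
    filter_upwards [local_wedge hD hz] with z' hz'
    simp only [wtU, hU, if_true, hab.symm, hac.symm, if_false]
    rw [hz']; ring
  · by_cases hb : b = u
    · subst hb
      have hD2 : 0 < det3 (p b) (p c) (p a) := by rw [det_cyc]; exact hD
      filter_upwards [local_wedge hD2 hz] with z' hz'
      simp only [wtU, hU, if_true, hab, hbc.symm, if_false]
      rw [hz']; ring
    · by_cases hc : c = u
      · subst hc
        have hD3 : 0 < det3 (p c) (p a) (p b) := by rw [det_cyc, det_cyc]; exact hD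
        filter_upwards [local_wedge hD3 hz] with z' hz'
        simp only [wtU, hU, if_true, hac, hbc, if_false]
        rw [hz']; ring
      · filter_upwards with z'
        simp only [wtU, hU, ha, hb, hc, if_false]
        ring

/-- the wedges at a ray of the fan cover everything -/
lemma star_cover {L : List (V × V × V)} {p : V → E3} (h : IsFan L p) {u : V} {s : V × V × V} (hs : s ∈ L)
    (hus : u = s.1 ∨ u = s.2.1 ∨ u = s.2.2) {q : E3} (hq : ∀ r : ℝ, q ≠ r • p u) :
    ∃ t ∈ L, ∃ a b, IsRot u a b t ∧ 0 ≤ det3 (p u) q (p b) ∧ 0 ≤ det3 (p u) (p a) q := by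
  classical
  -- the multiplicity function
  let f : E3 → ℤ := fun y => (L.map (fun t => wtU p u t y)).sum
  let S : Set E3 := {y | ∀ r : ℝ, y ≠ r • p u}
  have hloc : ∀ z ∈ S, ∀ᶠ z' in 𝓝 z, f z' = f z := by
    intro z hz
    have h1 : ∀ᶠ z' in 𝓝 z, ∀ t ∈ {t | t ∈ L}, wtU p u t z' - wtU p u t z =
        hU p u z z' (t.1, t.2.1) + hU p u z z' (t.2.1, t.2.2) + hU p u z z' (t.2.2, t.1) := by
      rw [eventually_all_finite (List.finite_toSet L)]
      intro t ht
      exact local_wtU (h.pos t ht) u hz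
    filter_upwards [h1] with z' hz'
    have h2 : f z' - f z = 0 := by
      simp only [f]
      rw [sum_sub']
      have h3 : (L.map (fun t => wtU p u t z' - wtU p u t z)) =
          L.map (fun t => hU p u z z' (t.1, t.2.1) + hU p u z z' (t.2.1, t.2.2) + hU p u z z' (t.2.2, t.1)) :=
        List.map_congr_left (fun t ht => hz' t ht)
      rw [h3, ← flat_sum L (hU p u z z')]
      exact odd_sum h.closed _ (fun e => hU_odd _ _ _ _ _)
    linarith
  have hSc : ∀ z, z ∉ S → ∃ v ∈ [p u], ∃ t : ℝ, z = t • v := by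
    intro z hz
    simp only [S, Set.mem_ofPred_eq, not_forall, not_not] at hz
    obtain ⟨r, hr⟩ := hz
    exact ⟨p u, by simp, r, hr⟩
  -- positivity at an interior point of the wedge of s
  obtain ⟨a, b, hrot⟩ := exists_rot hus
  have hD := h.pos s hs
  rw [hrot.det] at hD
  have hnn : ∀ t y, 0 ≤ wtU p u t y := by
    intro t y
    have : ∀ u a b z : E3, 0 ≤ wt2 u a b z := by
      intro u a b z
      unfold wt2
      split_ifs <;> norm_num
    unfold wtU
    split_ifs
    · exact this _ _ _ _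
    · exact this _ _ _ _
    · exact this _ _ _ _
    · exact le_rfl
  have hq0 : p a + p b ∈ S := by
    intro r hr
    have e1 : det3 (p u) (p a + p b) (p b) = det3 (p u) (p a) (p b) := by simp [det3]; ring
    have e2 : det3 (p u) (r • p u) (p b) = 0 := by simp [det3]; ring
    rw [hr, e2] at e1
    linarith
  have hpos : 0 < f (p a + p b) := by
    have e1 : det3 (p u) (p a + p b) (p b) = det3 (p u) (p a) (p b) := by simp [det3]; ring
    have e2 : det3 (p u) (p a) (p a + p b) = det3 (p u) (p a) (p b) := by simp [det3]; ring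
    have h2 : wt2 (p u) (p a) (p b) (p a + p b) = 2 := wt2_open (by rw [e1]; exact hD) (by rw [e2]; exact hD)
    have hua : u ≠ a := by rintro rfl; rw [det3_self12] at hD; exact lt_irrefl _ hD
    have hub : u ≠ b := by rintro rfl; rw [det3_self13] at hD; exact lt_irrefl _ hD
    have h3 : wtU p u s (p a + p b) = 2 := by
      rcases hrot with h | h | h
      · rw [h]; simp [wtU, h2]
      · rw [h]; simp [wtU, h2, hub.symm]
      · rw [h]; simp [wtU, h2, hua.symm, hub.symm]
    obtain ⟨l1, l2, hl⟩ := List.append_of_mem hs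
    have hnnl : ∀ l : List (V × V × V), 0 ≤ (l.map (fun t => wtU p u t (p a + p b))).sum := fun l =>
      List.sum_nonneg (by intro x hx; obtain ⟨y, _, rfl⟩ := List.mem_map.mp hx; exact hnn y _)
    have h4 : f (p a + p b) = (l1.map (fun t => wtU p u t (p a + p b))).sum + (2 +
        (l2.map (fun t => wtU p u t (p a + p b))).sum) := by
      simp only [f]
      rw [hl, List.map_append, List.map_cons, List.sum_append, List.sum_cons, h3]
    rw [h4]
    linarith [hnnl l1, hnnl l2]
  have hqS : q ∈ S := hq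
  have hfq : 0 < f q := by
    rw [path_const [p u] S hSc f hloc hqS hq0]; exact hpos
  -- some wedge contains q
  have hex : ∃ t ∈ L, 0 < wtU p u t q := by
    by_contra hcon
    push Not at hcon
    have : (L.map (fun t => wtU p u t q)) = L.map (fun _ => (0 : ℤ)) :=
      List.map_congr_left (fun s hs => le_antisymm (hcon s hs) (hnn s q))
    simp only [f] at hfq
    rw [this] at hfq
    simp at hfq
  obtain ⟨t, ht, hw⟩ := hex
  have key : ∀ {u a b z : E3}, 0 < wt2 u a b z → 0 ≤ det3 u z b ∧ 0 ≤ det3 u a z := by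
    intro u a b z hw
    by_contra hcon
    rw [wt2_out hcon] at hw
    exact lt_irrefl _ hw
  obtain ⟨x, y, w⟩ := t
  unfold wtU at hw
  simp only at hw
  split_ifs at hw with h1 h2 h3
  · exact ⟨_, ht, y, w, Or.inl (by rw [h1]), key hw⟩
  · exact ⟨_, ht, w, x, Or.inr (Or.inl (by rw [h2])), key hw⟩
  · exact ⟨_, ht, x, y, Or.inr (Or.inr (by rw [h3])), key hw⟩
  · exact absurd hw (lt_irrefl _)

/-- a cone which contains a point of an open ray of the fan has this ray as an edge -/
lemma ray_mem {L : List (V × V × V)} {p : V → E3} (h : IsFan L p) {u : V} {s : V × V × V} (hs : s ∈ L)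
    (hus : u = s.1 ∨ u = s.2.1 ∨ u = s.2.2) {r : ℝ} (hr : 0 < r) {t : V × V × V} (ht : t ∈ L)
    (hin : InCone (p t.1) (p t.2.1) (p t.2.2) (r • p u)) : u = t.1 ∨ u = t.2.1 ∨ u = t.2.2 := by
  classical
  by_contra hut
  have hDt := h.pos t ht
  obtain ⟨α, β, γ, hz⟩ := exists_comb hDt (r • p u)
  rw [hz, inCone_comb hDt] at hin
  obtain ⟨hα, hβ, hγ⟩ := hin
  -- direction q in the open cone of t, not on the line of u
  have hqex : ∃ q : E3, (∃ a b c : ℝ, 0 < a ∧ 0 < b ∧ 0 < c ∧ q = a • p t.1 + b • p t.2.1 + c • p t.2.2) ∧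
      ∀ r : ℝ, q ≠ r • p u := by
    by_cases h1 : ∀ r : ℝ, p t.1 + p t.2.1 + p t.2.2 ≠ r • p u
    · exact ⟨_, ⟨1, 1, 1, by norm_num, by norm_num, by norm_num, by simp⟩, h1⟩
    · push Not at h1
      obtain ⟨r1, hr1⟩ := h1
      refine ⟨(2 : ℝ) • p t.1 + (1 : ℝ) • p t.2.1 + (1 : ℝ) • p t.2.2,
        ⟨2, 1, 1, by norm_num, by norm_num, by norm_num, rfl⟩, ?_⟩
      intro r2 hr2
      have e1 : det3 (p t.1 + p t.2.1 + p t.2.2) ((2 : ℝ) • p t.1 + (1 : ℝ) • p t.2.1 + (1 : ℝ) • p t.2.2) (p t.2.2) =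
          - det3 (p t.1) (p t.2.1) (p t.2.2) := by simp [det3]; ring
      rw [hr1, hr2] at e1
      have e2 : det3 (r1 • p u) (r2 • p u) (p t.2.2) = 0 := by simp [det3]; ring
      rw [e2] at e1
      linarith
  obtain ⟨q, ⟨a, b, c, ha, hb, hc, hqe⟩, hq⟩ := hqex
  obtain ⟨t', ht', a', b', hrot, hw1, hw2⟩ := star_cover h hs hus hq
  have hD' := h.pos t' ht'
  rw [hrot.det] at hD'
  obtain ⟨γ', α', β', hq'⟩ := exists_comb hD' q
  have hα' : 0 ≤ α' := by
    rw [hq', det_comb2] at hw1
    exact (mul_nonneg_iff_left_nonneg_of_pos hD').mp hw1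
  have hβ' : 0 ≤ β' := by
    rw [hq', det_comb3] at hw2
    exact (mul_nonneg_iff_left_nonneg_of_pos hD').mp hw2
  have htt' : t ≠ t' := by
    rintro rfl
    apply hut
    rcases hrot with h | h | h
    · left; rw [h]
    · right; left; rw [h]
    · right; right; rw [h]
  -- small ε
  have hev1 : ∀ᶠ ε : ℝ in 𝓝[>] 0, 0 ≤ r + ε * γ' := by
    have : ContinuousAt (fun ε : ℝ => r + ε * γ') 0 := by fun_prop
    have h0 : 0 < (fun ε : ℝ => r + ε * γ') 0 := by simpa using hr
    exact ((this.eventually (lt_mem_nhds h0)).filter_mono nhdsWithin_le_nhds).mono fun ε hε => hε.le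
  have hev2 : ∀ᶠ ε : ℝ in 𝓝[>] 0, r • p u + ε • q ∈ offRays L p := by
    have hline : ∀ v : V, v ∈ L.flatMap (fun t => [t.1, t.2.1, t.2.2]) → ∀ᶠ ε : ℝ in 𝓝[>] 0, ∀ ρ : ℝ, r • p u + ε • q ≠ ρ • p v := by
      intro v _
      have hsub : {ε : ℝ | ∃ ρ : ℝ, r • p u + ε • q = ρ • p v}.Subsingleton := by
        rintro ε1 ⟨ρ1, h1⟩ ε2 ⟨ρ2, h2⟩
        by_contra hne
        -- q is parallel to p v, hence p u too, hence q parallel to p u
        have h3 : (ε1 - ε2) • q = (ρ1 - ρ2) • p v := by
          rw [sub_smul, sub_smul, ← h1, ← h2]; abel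
        have h4 : q = ((ε1 - ε2)⁻¹ * (ρ1 - ρ2)) • p v := by
          rw [mul_smul, ← h3, smul_smul, inv_mul_cancel₀ (sub_ne_zero.mpr hne), one_smul]
        set κ := (ε1 - ε2)⁻¹ * (ρ1 - ρ2) with hκ
        have hκ0 : κ ≠ 0 := by
          intro h0
          rw [h0, zero_smul] at h4
          exact hq 0 (by rw [h4, zero_smul])
        have h5 : r • p u = (ρ1 - ε1 * κ) • p v := by
          rw [sub_smul, ← h1, mul_smul, ← h4]; abel
        have h6 : (ρ1 - ε1 * κ) ≠ 0 := by
          intro h0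
          rw [h0, zero_smul] at h5
          have hpu : p u = 0 := by
            rcases smul_eq_zero.mp h5 with h | h
            · exact absurd h hr.ne'
            · exact h
          have hDs := h.pos s hs
          obtain ⟨x, y, hrs⟩ := exists_rot hus
          rw [hrs.det, hpu] at hDs
          have : det3 0 (p x) (p y) = 0 := by simp [det3]
          rw [this] at hDs
          exact lt_irrefl _ hDs
        apply hq (κ * ((ρ1 - ε1 * κ)⁻¹ * r))
        have h7 : p v = ((ρ1 - ε1 * κ)⁻¹ * r) • p u := by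
          rw [mul_smul, h5, smul_smul, inv_mul_cancel₀ h6, one_smul]
        rw [mul_smul, ← h7]; exact h4
      have hfin := hsub.finite
      have hcl : IsClosed ({ε : ℝ | ∃ ρ : ℝ, r • p u + ε • q = ρ • p v} \ {0}) :=
        (hfin.subset Set.sdiff_subset).isClosed
      have : ∀ᶠ ε : ℝ in 𝓝 0, ε ∉ ({ε : ℝ | ∃ ρ : ℝ, r • p u + ε • q = ρ • p v} \ {0}) :=
        hcl.isOpen_compl.mem_nhds (by simp)
      filter_upwards [this.filter_mono nhdsWithin_le_nhds, self_mem_nhdsWithin] with ε hε hε0 ρ hρ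
      apply hε
      exact ⟨⟨ρ, hρ⟩, by simp only [Set.mem_singleton_iff]; exact (ne_of_gt hε0)⟩
    have hall : ∀ᶠ ε : ℝ in 𝓝[>] 0, ∀ v ∈ {v | v ∈ L.flatMap (fun t => [t.1, t.2.1, t.2.2])},
        ∀ ρ : ℝ, r • p u + ε • q ≠ ρ • p v := by
      rw [eventually_all_finite (List.finite_toSet _)]
      exact hline
    filter_upwards [hall] with ε hε t ht
    have hm : ∀ v, (v = t.1 ∨ v = t.2.1 ∨ v = t.2.2) → v ∈ {v | v ∈ L.flatMap (fun t => [t.1, t.2.1, t.2.2])} := by
      intro v hv
      simp only [Set.mem_ofPred_eq, List.mem_flatMap]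
      exact ⟨t, ht, by rcases hv with hv | hv | hv <;> simp [hv]⟩
    exact ⟨fun ρ _ => hε _ (hm _ (Or.inl rfl)) ρ, fun ρ _ => hε _ (hm _ (Or.inr (Or.inl rfl))) ρ,
      fun ρ _ => hε _ (hm _ (Or.inr (Or.inr rfl))) ρ⟩
  obtain ⟨ε, hε1, hε2, hε0⟩ := (hev1.and (hev2.and self_mem_nhdsWithin)).exists
  have hε0 : 0 < ε := hε0
  have hm := mult_eq h hε2
  have hwt : wt (p t.1) (p t.2.1) (p t.2.2) (r • p u + ε • q) = 2 := by
    apply wt_open
    have e : r • p u + ε • q = (α + ε * a) • p t.1 + (β + ε * b) • p t.2.1 + (γ + ε * c) • p t.2.2 := by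
      rw [hz, hqe]
      simp only [smul_add, add_smul, smul_smul]
      abel
    rw [e, inOpenCone_comb hDt]
    exact ⟨by positivity, by positivity, by positivity⟩
  have hwt' : 1 ≤ wt (p t'.1) (p t'.2.1) (p t'.2.2) (r • p u + ε • q) := by
    have : 0 < wt (p t'.1) (p t'.2.1) (p t'.2.2) (r • p u + ε • q) := by
      rw [wt_pos_iff, hrot.inCone]
      have e : r • p u + ε • q = (r + ε * γ') • p u + (ε * α') • p a' + (ε * β') • p b' := by
        conv_lhs => rw [hq']
        simp only [smul_add, add_smul, smul_smul]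
        abel
      rw [e, inCone_comb hD']
      exact ⟨hε1, by positivity, by positivity⟩
    exact this
  have := sum_le_of_ne L (fun t => wt (p t.1) (p t.2.1) (p t.2.2) (r • p u + ε • q)) (fun t => wt_nonneg _ _ _ _)
    ht ht' htt'
  unfold mult at hm
  rw [hm, hwt] at this
  linarith

end Pool.Agent.Helper66.AF
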