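import Mathlib

/-!
Finite complexes of affine tetrahedra: definitions.
-/

set_option autoImplicit false

namespace Pool.Agent.Helper66.AF

/-- `ℝ³` -/
abbrev E3 : Type := Fin 3 → ℝ

/-- the determinant of three vectors of `ℝ³` -/
def det3 (a b c : E3) : ℝ :=
  a 0 * (b 1 * c 2 - b 2 * c 1) - a 1 * (b 0 * c 2 - b 2 * c 0) + a 2 * (b 0 * c 1 - b 1 * c 0)

/-- `y` lies in the closed cone spanned by `a, b, c` (if their determinant is positive) -/
def InCone (a b c y : E3) : Prop := 0 ≤ det3 y b c ∧ 0 ≤ det3 a y c ∧ 0 ≤ det3 a b y

/-- `y` lies in the open cone spanned by `a, b, c` (if their determinant is positive) -/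
def InOpenCone (a b c y : E3) : Prop := 0 < det3 y b c ∧ 0 < det3 a y c ∧ 0 < det3 a b y

section Comb

variable {V : Type*}

/-- the three directed edges of an oriented triangle -/
def triEdges (t : V × V × V) : List (V × V) := [(t.1, t.2.1), (t.2.1, t.2.2), (t.2.2, t.1)]

/-- An oriented closed surface `L` (list of oriented triangles) with a vector `p v` for each vertex:
all the determinants are positive, the directed edges are invariant under reversal, and there is a
vector which is in the open cone of the first triangle and in no other closed cone. -/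
structure IsFan (L : List (V × V × V)) (p : V → E3) : Prop where
  pos : ∀ t ∈ L, 0 < det3 (p t.1) (p t.2.1) (p t.2.2)
  closed : ((L.flatMap triEdges).map Prod.swap).Perm (L.flatMap triEdges)
  degree : ∃ (y : E3) (t : V × V × V) (L' : List (V × V × V)), L = t :: L' ∧
    InOpenCone (p t.1) (p t.2.1) (p t.2.2) y ∧ ∀ s ∈ L', ¬ InCone (p s.1) (p s.2.1) (p s.2.2) y

/-- an oriented tetrahedron (the order of the vertices gives the orientation) -/
abbrev Tet (V : Type*) : Type _ := V × V × V × V

/-- the vertices of a tetrahedron -/
def verts (t : Tet V) : List V := [t.1, t.2.1, t.2.2.1, t.2.2.2]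

variable [DecidableEq V]

/-- the oriented triangle opposite to `v` in the tetrahedron `t` (the empty list if `v` is not a vertex) -/
def linkOf (v : V) (t : Tet V) : List (V × V × V) :=
  (if t.1 = v then [(t.2.1, t.2.2.1, t.2.2.2)] else []) ++
  (if t.2.1 = v then [(t.1, t.2.2.2, t.2.2.1)] else []) ++
  (if t.2.2.1 = v then [(t.2.2.2, t.1, t.2.1)] else []) ++
  (if t.2.2.2 = v then [(t.2.2.1, t.2.1, t.1)] else [])

/-- the link of the vertex `v` -/
def link (T : List (Tet V)) (v : V) : List (V × V × V) := T.flatMap (linkOf v)

/-- `T` is a list of oriented tetrahedra with vertices in `V`, and `p v w` is the position of the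
vertex `w` in the affine chart at the vertex `v`. -/
structure IsAffineComplex (T : List (Tet V)) (p : V → V → E3) : Prop where
  /-- the chart at `v` is centred at `v` -/
  center : ∀ v, p v v = 0
  /-- the link of `v` is a complete fan in the chart at `v` -/
  fan : ∀ v, IsFan (link T v) (p v)
  /-- the charts at `v` and `w` differ by an affine map on the tetrahedra containing `v` and `w` -/
  trans : ∀ v w, ∃ A : E3 →ᵃ[ℝ] E3, ∀ t ∈ T, v ∈ verts t → w ∈ verts t → ∀ u ∈ verts t, A (p v u) = p w u
  /-- the one-skeleton is connected -/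
  conn : ∀ v w, Relation.ReflTransGen (fun a b => ∃ t ∈ T, a ∈ verts t ∧ b ∈ verts t) v w

end Comb

section Real

variable {V : Type*} [Fintype V]

/-- the geometric realization, in barycentric coordinates -/
def geo (T : List (Tet V)) : Set (V → ℝ) :=
  {x | (∀ v, 0 ≤ x v) ∧ ∑ v, x v = 1 ∧ ∃ t ∈ T, ∀ v, x v ≠ 0 → v ∈ verts t}

end Real

end Pool.Agent.Helper66.AF
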