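import Pool.Agent.Helper66.AF.Main

/-!
Symmetry transport for fans and affine complexes.
-/

set_option autoImplicit false

namespace Pool.Agent.Helper66.AF

open Filter Topology

section Fan

variable {V V' : Type*}

/-- there is a vector in the open cone of `t` which is on no ray -/
lemma exists_generic_in {L : List (V × V × V)} {p : V → E3} {t : V × V × V}
    (hD : 0 < det3 (p t.1) (p t.2.1) (p t.2.2)) :
    ∃ y ∈ offRays L p, InOpenCone (p t.1) (p t.2.1) (p t.2.2) y := by
  set y0 : E3 := (1 : ℝ) • p t.1 + (1 : ℝ) • p t.2.1 + (1 : ℝ) • p t.2.2 with hy0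
  obtain ⟨q, hq⟩ := exists_generic (L.flatMap (fun t => [p t.1, p t.2.1, p t.2.2])) y0 y0
  have h0 : InOpenCone (p t.1) (p t.2.1) (p t.2.2) y0 := by
    rw [hy0, inOpenCone_comb hD]; norm_num
  have hc : Continuous (fun ε : ℝ => y0 + ε • q) := by fun_prop
  have hev : ∀ᶠ ε : ℝ in 𝓝[>] 0, InOpenCone (p t.1) (p t.2.1) (p t.2.2) (y0 + ε • q) := by
    have e0 : (fun ε : ℝ => y0 + ε • q) 0 = y0 := by simp
    have c1 := ((det_cont1 (p t.2.1) (p t.2.2)).comp hc).continuousAt (x := (0 : ℝ))
    have c2 := ((det_cont2 (p t.1) (p t.2.2)).comp hc).continuousAt (x := (0 : ℝ))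
    have c3 := ((det_cont3 (p t.1) (p t.2.1)).comp hc).continuousAt (x := (0 : ℝ))
    have P : ∀ {f : ℝ → ℝ}, ContinuousAt f 0 → 0 < f 0 → ∀ᶠ z' in 𝓝[>] 0, 0 < f z' :=
      fun hf h => (hf.eventually (lt_mem_nhds h)).filter_mono nhdsWithin_le_nhds
    filter_upwards [P c1 (by simpa using h0.1), P c2 (by simpa using h0.2.1), P c3 (by simpa using h0.2.2)]
      with ε h1 h2 h3 using ⟨h1, h2, h3⟩
  obtain ⟨ε, hε, hε0⟩ := (hev.and self_mem_nhdsWithin).exists
  have hε0 : 0 < ε := hε0
  refine ⟨y0 + ε • q, ?_, hε⟩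
  have key : ∀ v, p v ∈ L.flatMap (fun t => [p t.1, p t.2.1, p t.2.2]) → ∀ r : ℝ, y0 + ε • q ≠ r • p v := by
    intro v hv r hr
    apply (hq _ hv).1
    have : q = (-ε⁻¹) • y0 + (ε⁻¹ * r) • p v := by
      have h1 : ε • q = r • p v - y0 := by rw [← hr]; abel
      have h2 : q = ε⁻¹ • (ε • q) := by rw [smul_smul, inv_mul_cancel₀ hε0.ne', one_smul]
      rw [h2, h1, smul_sub, smul_smul, neg_smul]
      abel
    rw [this]
    refine Submodule.add_mem _ (Submodule.smul_mem _ _ (Submodule.subset_span ?_))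
      (Submodule.smul_mem _ _ (Submodule.subset_span ?_)) <;> simp
  intro s hs
  have hm : ∀ w, (w = s.1 ∨ w = s.2.1 ∨ w = s.2.2) → p w ∈ L.flatMap (fun t => [p t.1, p t.2.1, p t.2.2]) := by
    intro w hw
    rw [List.mem_flatMap]
    exact ⟨s, hs, by rcases hw with hw | hw | hw <;> simp [hw]⟩
  exact ⟨fun r _ => key _ (hm _ (Or.inl rfl)) r, fun r _ => key _ (hm _ (Or.inr (Or.inl rfl))) r,
    fun r _ => key _ (hm _ (Or.inr (Or.inr rfl))) r⟩

lemma offRays_perm {L L' : List (V × V × V)} {p : V → E3} (hL : L.Perm L') {y : E3} (hy : y ∈ offRays L p) :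
    y ∈ offRays L' p := fun t ht => hy t (hL.mem_iff.mpr ht)

/-- a fan does not depend on the order of the triangles -/
theorem IsFan.perm {L L' : List (V × V × V)} {p : V → E3} (h : IsFan L p) (hL : L.Perm L') : IsFan L' p := by
  refine ⟨fun t ht => h.pos t (hL.mem_iff.mpr ht), ?_, ?_⟩
  · have h1 : (L.flatMap triEdges).Perm (L'.flatMap triEdges) := hL.flatMap_right _
    exact ((h1.symm.map _).trans h.closed).trans h1
  · obtain ⟨_, t0, L0, hL0, _⟩ := h.degree
    cases L' with
    | nil =>
      have := hL.length_eq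
      rw [hL0] at this
      simp at this
    | cons t L'' =>
      have ht : t ∈ L := hL.mem_iff.mpr (List.mem_cons_self)
      obtain ⟨y, hy, hyt⟩ := exists_generic_in (L := L) (h.pos t ht)
      refine ⟨y, t, L'', rfl, hyt, fun s hs hin => ?_⟩
      have hm := mult_eq h hy
      have e : mult L p y = mult (t :: L'') p y := by
        unfold mult
        exact (hL.map _).sum_eq
      rw [e] at hm
      unfold mult at hm
      rw [List.map_cons, List.sum_cons, wt_open hyt] at hm
      have h0 : (L''.map (fun t => wt (p t.1) (p t.2.1) (p t.2.2) y)).sum = 0 := by linarith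
      have h1 := wt_pos_iff.mpr hin
      obtain ⟨l1, l2, rfl⟩ := List.append_of_mem hs
      have hnn : ∀ l : List (V × V × V), 0 ≤ (l.map (fun t => wt (p t.1) (p t.2.1) (p t.2.2) y)).sum := fun l =>
        List.sum_nonneg (by intro x hx; obtain ⟨z, _, rfl⟩ := List.mem_map.mp hx; exact wt_nonneg _ _ _ _)
      simp only [List.map_append, List.map_cons, List.sum_append, List.sum_cons] at h0
      linarith [hnn l1, hnn l2]

/-- a fan only depends on the positions of its vertices -/
theorem IsFan.congr {L : List (V × V × V)} {p p' : V → E3} (h : IsFan L p)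
    (he : ∀ t ∈ L, p' t.1 = p t.1 ∧ p' t.2.1 = p t.2.1 ∧ p' t.2.2 = p t.2.2) : IsFan L p' := by
  refine ⟨fun t ht => ?_, h.closed, ?_⟩
  · rw [(he t ht).1, (he t ht).2.1, (he t ht).2.2]; exact h.pos t ht
  · obtain ⟨y, t, L', hL, h1, h2⟩ := h.degree
    refine ⟨y, t, L', hL, ?_, fun s hs => ?_⟩
    · have ht : t ∈ L := by rw [hL]; exact List.mem_cons_self
      rw [(he t ht).1, (he t ht).2.1, (he t ht).2.2]; exact h1
    · have hs' : s ∈ L := by rw [hL]; exact List.mem_cons_of_mem _ hs
      rw [(he s hs').1, (he s hs').2.1, (he s hs').2.2]; exact h2 s hs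

/-- relabelling of a triangle -/
def map3 (φ : V → V') (t : V × V × V) : V' × V' × V' := (φ t.1, φ t.2.1, φ t.2.2)

lemma flatMap_map3 (φ : V → V') (L : List (V × V × V)) :
    (L.map (map3 φ)).flatMap triEdges = (L.flatMap triEdges).map (Prod.map φ φ) := by
  induction L with
  | nil => rfl
  | cons t L ih =>
    simp only [List.map_cons, List.flatMap_cons, List.map_append, ih]
    rfl

theorem IsFan.map {L : List (V × V × V)} {φ : V → V'} {p : V' → E3} (h : IsFan L (fun v => p (φ v))) :
    IsFan (L.map (map3 φ)) p := by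
  refine ⟨?_, ?_, ?_⟩
  · intro t ht
    obtain ⟨s, hs, rfl⟩ := List.mem_map.mp ht
    exact h.pos s hs
  · rw [flatMap_map3]
    have h1 := h.closed.map (Prod.map φ φ)
    rw [List.map_map] at h1 ⊢
    have e : (Prod.map φ φ ∘ Prod.swap : V × V → V' × V') = Prod.swap ∘ Prod.map φ φ := by
      funext x; rfl
    rw [e] at h1
    exact h1
  · obtain ⟨y, t, L', hL, h1, h2⟩ := h.degree
    refine ⟨y, map3 φ t, L'.map (map3 φ), by rw [hL]; rfl, h1, fun s hs => ?_⟩
    obtain ⟨s', hs', rfl⟩ := List.mem_map.mp hs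
    exact h2 s' hs'

/-- reversal of the orientation of a triangle -/
def rev3 (t : V × V × V) : V × V × V := (t.1, t.2.2, t.2.1)

lemma flatMap_rev3 (L : List (V × V × V)) :
    ((L.map rev3).flatMap triEdges).Perm ((L.flatMap triEdges).map Prod.swap) := by
  induction L with
  | nil => exact List.Perm.refl _
  | cons t L ih =>
    simp only [List.map_cons, List.flatMap_cons, List.map_append]
    refine List.Perm.append ?_ ih
    obtain ⟨a, b, c⟩ := t
    simp only [triEdges, rev3, List.map_cons, List.map_nil, Prod.swap_prod_mk]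
    -- [(a,c),(c,b),(b,a)] ~ [(b,a),(c,b),(a,c)]
    exact (List.Perm.swap _ _ _).trans (((List.Perm.swap _ _ _).cons _).trans (List.Perm.swap _ _ _))

theorem IsFan.linear_pos {L : List (V × V × V)} {p : V → E3} (h : IsFan L p) {A : E3 → E3} {D : ℝ} (hD : 0 < D)
    (hA : ∀ a b c, det3 (A a) (A b) (A c) = D * det3 a b c) : IsFan L (fun v => A (p v)) := by
  refine ⟨fun t ht => ?_, h.closed, ?_⟩
  · rw [hA]; exact mul_pos hD (h.pos t ht)
  · obtain ⟨y, t, L', hL, h1, h2⟩ := h.degree
    refine ⟨A y, t, L', hL, ?_, fun s hs hin => h2 s hs ?_⟩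
    · unfold InOpenCone; rw [hA, hA, hA]
      exact ⟨mul_pos hD h1.1, mul_pos hD h1.2.1, mul_pos hD h1.2.2⟩
    · unfold InCone at hin; rw [hA, hA, hA] at hin
      exact ⟨(mul_nonneg_iff_of_pos_left hD).mp hin.1, (mul_nonneg_iff_of_pos_left hD).mp hin.2.1,
        (mul_nonneg_iff_of_pos_left hD).mp hin.2.2⟩

theorem IsFan.linear_neg {L : List (V × V × V)} {p : V → E3} (h : IsFan L p) {A : E3 → E3} {D : ℝ} (hD : D < 0)
    (hA : ∀ a b c, det3 (A a) (A b) (A c) = D * det3 a b c) : IsFan (L.map rev3) (fun v => A (p v)) := by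
  have sw : ∀ a b c : E3, det3 a c b = - det3 a b c := fun a b c => by simp [det3]; ring
  have hD' : 0 < -D := by linarith
  refine ⟨?_, ?_, ?_⟩
  · intro t ht
    obtain ⟨s, hs, rfl⟩ := List.mem_map.mp ht
    simp only [rev3]
    rw [hA, sw]
    have := h.pos s hs
    nlinarith
  · have h1 := flatMap_rev3 L
    have h2 : (((L.map rev3).flatMap triEdges).map Prod.swap).Perm (L.flatMap triEdges) := by
      refine (h1.map Prod.swap).trans ?_
      rw [List.map_map]
      have : (Prod.swap ∘ Prod.swap : V × V → V × V) = id := by funext x; simp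
      rw [this, List.map_id]
    exact h2.trans (h.closed.symm.trans h1.symm)
  · obtain ⟨y, t, L', hL, h1, h2⟩ := h.degree
    refine ⟨A y, rev3 t, L'.map rev3, by rw [hL]; rfl, ?_, fun s hs hin => ?_⟩
    · unfold InOpenCone rev3
      simp only
      rw [hA, hA, hA, sw y, sw (p t.1) (p t.2.1) y, sw (p t.1) y (p t.2.2)]
      exact ⟨by nlinarith [h1.1], by nlinarith [h1.2.2], by nlinarith [h1.2.1]⟩
    · obtain ⟨s', hs', rfl⟩ := List.mem_map.mp hs
      apply h2 s' hs'
      unfold InCone rev3 at hin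
      simp only at hin
      rw [hA, hA, hA, sw y, sw (p s'.1) (p s'.2.1) y, sw (p s'.1) y (p s'.2.2)] at hin
      obtain ⟨q1, q2, q3⟩ := hin
      refine ⟨?_, ?_, ?_⟩
      · by_contra hc; push Not at hc; nlinarith
      · by_contra hc; push Not at hc; nlinarith
      · by_contra hc; push Not at hc; nlinarith

end Fan

section Link

variable {V V' : Type*} [DecidableEq V] [DecidableEq V']

/-- relabelling of a tetrahedron -/
def map4 (φ : V → V') (t : Tet V) : Tet V' := (φ t.1, φ t.2.1, φ t.2.2.1, φ t.2.2.2)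

/-- reversal of the orientation of a tetrahedron -/
def rev4 (t : Tet V) : Tet V := (t.2.1, t.1, t.2.2.1, t.2.2.2)

lemma linkOf_map4 {φ : V → V'} (hφ : Function.Injective φ) (v : V) (t : Tet V) :
    linkOf (φ v) (map4 φ t) = (linkOf v t).map (map3 φ) := by
  unfold linkOf map4
  simp only [hφ.eq_iff, List.map_append]
  congr 1
  · congr 1
    · congr 1
      · split_ifs <;> rfl
      · split_ifs <;> rfl
    · split_ifs <;> rfl
  · split_ifs <;> rfl

lemma link_map4 {φ : V → V'} (hφ : Function.Injective φ) (v : V) (T : List (Tet V)) :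
    link (T.map (map4 φ)) (φ v) = (link T v).map (map3 φ) := by
  unfold link
  induction T with
  | nil => rfl
  | cons t T ih => simp only [List.map_cons, List.flatMap_cons, List.map_append, ih, linkOf_map4 hφ]

lemma linkOf_rev4 (v : V) (t : Tet V) : (linkOf v (rev4 t)).Perm ((linkOf v t).map rev3) := by
  unfold linkOf rev4
  simp only [List.map_append]
  have e : ∀ (P : Prop) [Decidable P] (x : V × V × V), (if P then [x] else []).map rev3 =
      if P then [rev3 x] else [] := by
    intro P _ x; split_ifs <;> rfl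
  simp only [e, rev3]
  refine List.Perm.append_right _ (List.Perm.append_right _ ?_)
  exact List.perm_append_comm

lemma link_rev4 (v : V) (T : List (Tet V)) : (link (T.map rev4) v).Perm ((link T v).map rev3) := by
  unfold link
  induction T with
  | nil => exact List.Perm.refl _
  | cons t T ih =>
    simp only [List.map_cons, List.flatMap_cons, List.map_append]
    exact (linkOf_rev4 v t).append ih

omit [DecidableEq V] in
lemma link_perm' [DecidableEq V] {T T' : List (Tet V)} (h : T.Perm T') (v : V) : (link T v).Perm (link T' v) :=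
  h.flatMap_right _

/-- **Transport by an orientation preserving symmetry.** -/
theorem fan_of_symm {T : List (Tet V)} {p : V → V → E3} {φ : V → V} (hφ : Function.Injective φ)
    (hT : (T.map (map4 φ)).Perm T) {v : V} (hp : ∀ w, p (φ v) (φ w) = p v w) (h : IsFan (link T v) (p v)) :
    IsFan (link T (φ v)) (p (φ v)) := by
  have h1 : IsFan (link T v) (fun w => p (φ v) (φ w)) := h.congr (fun t _ => ⟨hp _, hp _, hp _⟩)
  have h2 := h1.map (φ := φ) (p := p (φ v))
  rw [← link_map4 hφ] at h2
  exact h2.perm (link_perm' hT (φ v))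

/-- **Transport by an orientation reversing symmetry.** -/
theorem fan_of_antisymm {T : List (Tet V)} {p : V → V → E3} {φ : V → V} (hφ : Function.Injective φ)
    (hT : ((T.map (map4 φ)).map rev4).Perm T) {A : E3 → E3} {D : ℝ} (hD : D < 0)
    (hA : ∀ a b c, det3 (A a) (A b) (A c) = D * det3 a b c) {v : V}
    (hp : ∀ w, p (φ v) (φ w) = A (p v w)) (h : IsFan (link T v) (p v)) :
    IsFan (link T (φ v)) (p (φ v)) := by
  have h0 := h.linear_neg hD hA
  have h1 : IsFan ((link T v).map rev3) (fun w => p (φ v) (φ w)) := h0.congr (fun t _ => ⟨hp _, hp _, hp _⟩)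
  have h2 := h1.map (φ := φ) (p := p (φ v))
  have e : ((link T v).map rev3).map (map3 φ) = ((link T v).map (map3 φ)).map rev3 := by
    rw [List.map_map, List.map_map]; rfl
  rw [e, ← link_map4 hφ] at h2
  exact (h2.perm (link_rev4 (φ v) (T.map (map4 φ))).symm).perm (link_perm' hT (φ v))

end Link

end Pool.Agent.Helper66.AF
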