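import Pool.Agent.Helper66.AF.Chart

/-!
The geometric realization of an affine complex is a closed affine manifold.
-/

set_option autoImplicit false

namespace Pool.Agent.Helper66.AF

open Filter Topology

variable {V : Type*} [Fintype V]

lemma geo_isCompact (T : List (Tet V)) : IsCompact (geo T) := by
  classical
  have e : geo T = ⋃ t ∈ {t | t ∈ T}, (stdSimplex ℝ V ∩ {x | ∀ v, v ∉ verts t → x v = 0}) := by
    ext x
    simp only [geo, Set.mem_ofPred_eq, Set.mem_iUnion, Set.mem_inter_iff, stdSimplex, exists_prop]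
    constructor
    · rintro ⟨h1, h2, t, ht, h3⟩
      exact ⟨t, ht, ⟨h1, h2⟩, fun v hv => by by_contra h0; exact hv (h3 v h0)⟩
    · rintro ⟨t, ht, ⟨h1, h2⟩, h3⟩
      exact ⟨h1, h2, t, ht, fun v hv => by by_contra h0; exact hv (h3 v h0)⟩
  rw [e]
  refine (List.finite_toSet T).isCompact_biUnion (fun t _ => ?_)
  refine (isCompact_stdSimplex ℝ V).inter_right ?_
  have e2 : {x : V → ℝ | ∀ v, v ∉ verts t → x v = 0} = ⋂ v, ⋂ (_ : v ∉ verts t), {x | x v = 0} := by
    ext x; simp
  rw [e2]
  exact isClosed_iInter (fun v => isClosed_iInter (fun _ => isClosed_eq (continuous_apply v) continuous_const))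

instance (T : List (Tet V)) : CompactSpace (geo T) := isCompact_iff_compactSpace.mp (geo_isCompact T)

variable [DecidableEq V]

/-- the vertex `v` as a point of `V → ℝ` -/
def vpt (v : V) : V → ℝ := Pi.single v 1

omit [Fintype V] in
lemma vpt_self (v : V) : vpt v v = 1 := by simp [vpt]

omit [Fintype V] in
lemma vpt_ne {v w : V} (h : w ≠ v) : vpt v w = 0 := by simp [vpt, h]

lemma vpt_sum (v : V) : ∑ w, vpt v w = 1 := by simp [vpt]

omit [Fintype V] in
lemma vpt_nonneg (v w : V) : 0 ≤ vpt v w := by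
  unfold vpt
  by_cases h : w = v
  · rw [h]; simp
  · rw [Pi.single_eq_of_ne h]

/-- the closed star of `v` -/
def cstar (T : List (Tet V)) (v : V) : Set (V → ℝ) :=
  {x | (∀ v, 0 ≤ x v) ∧ ∑ v, x v = 1 ∧ ∃ t ∈ T, v ∈ verts t ∧ ∀ w, x w ≠ 0 → w ∈ verts t}

lemma cstar_connected {T : List (Tet V)} {v : V} (hv : ∃ t ∈ T, v ∈ verts t) : IsConnected (cstar T v) := by
  have hmem : vpt v ∈ cstar T v := by
    obtain ⟨t, ht, hvt⟩ := hv
    refine ⟨vpt_nonneg v, vpt_sum v, t, ht, hvt, fun w hw => ?_⟩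
    by_cases h : w = v
    · rw [h]; exact hvt
    · exact absurd (vpt_ne h) hw
  have hstar : StarConvex ℝ (vpt v) (cstar T v) := by
    rintro x ⟨h1, h2, t, ht, hvt, hx⟩ a b ha hb hab
    refine ⟨fun w => ?_, ?_, t, ht, hvt, fun w hw => ?_⟩
    · simp only [Pi.add_apply, Pi.smul_apply, smul_eq_mul]
      have := vpt_nonneg v w
      have := h1 w
      positivity
    · simp only [Pi.add_apply, Pi.smul_apply, smul_eq_mul]
      rw [Finset.sum_add_distrib, ← Finset.mul_sum, ← Finset.mul_sum, vpt_sum, h2]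
      linarith
    · by_contra hwt
      apply hw
      have hwv : w ≠ v := fun e => hwt (by rw [e]; exact hvt)
      have hxw : x w = 0 := by by_contra h0; exact hwt (hx w h0)
      simp [vpt_ne hwv, hxw]
  exact (hstar.isPathConnected hmem).isConnected

variable {T : List (Tet V)} {p : V → V → E3}

omit [Fintype V] in
lemma exists_tet (h : IsAffineComplex T p) (v : V) : ∃ t ∈ T, v ∈ verts t := by
  obtain ⟨s, hs, _⟩ := (h.fan v).cover 0
  obtain ⟨t, ht, hst⟩ := mem_link.mp hs
  exact ⟨t, ht, (linkOf_verts hst v).mpr (Or.inl rfl)⟩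

lemma geo_isConnected (h : IsAffineComplex T p) [Nonempty V] : IsConnected (geo T) := by
  have e : geo T = ⋃ v, cstar T v := by
    ext x
    simp only [Set.mem_iUnion]
    constructor
    · rintro ⟨h1, h2, t, ht, h3⟩
      have : ∃ v, x v ≠ 0 := by
        by_contra hcon
        push Not at hcon
        simp [hcon] at h2
      obtain ⟨v, hv⟩ := this
      exact ⟨v, h1, h2, t, ht, h3 v hv, h3⟩
    · rintro ⟨v, h1, h2, t, ht, _, h3⟩
      exact ⟨h1, h2, t, ht, h3⟩
  rw [e]
  apply IsConnected.iUnion_of_reflTransGen (fun v => cstar_connected (exists_tet h v))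
  intro v w
  refine Relation.ReflTransGen.mono ?_ _ _ (h.conn v w)
  rintro a b ⟨t, ht, ha, hb⟩
  refine ⟨vpt a, ?_, ?_⟩
  · refine ⟨vpt_nonneg a, vpt_sum a, t, ht, ha, fun w hw => ?_⟩
    by_cases e : w = a
    · rw [e]; exact ha
    · exact absurd (vpt_ne e) hw
  · refine ⟨vpt_nonneg a, vpt_sum a, t, ht, hb, fun w hw => ?_⟩
    by_cases e : w = a
    · rw [e]; exact ha
    · exact absurd (vpt_ne e) hw

theorem geo_connectedSpace (h : IsAffineComplex T p) [Nonempty V] : ConnectedSpace (geo T) :=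
  isConnected_iff_connectedSpace.mp (geo_isConnected h)

omit [DecidableEq V] in
/-- an affine map of `ℝ³` commutes with barycentric combinations -/
lemma affine_sum (A : E3 →ᵃ[ℝ] E3) (f : V → ℝ) (q : V → E3) (hf : ∑ w, f w = 1) :
    A (∑ w, f w • q w) = ∑ w, f w • A (q w) := by
  have h1 : ∀ x : E3, A x = A.linear x + A 0 := fun x => by
    have := A.map_vadd 0 x
    simpa using this
  rw [h1, map_sum]
  simp only [map_smul]
  have h2 : ∀ w, f w • A (q w) = f w • A.linear (q w) + f w • A 0 := fun w => by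
    rw [h1 (q w), smul_add]
  simp only [h2]
  rw [Finset.sum_add_distrib, ← Finset.sum_smul, hf, one_smul]

omit [DecidableEq V] in
/-- the affine map of the transition, on the overlap of two open stars -/
lemma trans_apply {v w : V} {A : E3 →ᵃ[ℝ] E3}
    (hA : ∀ t ∈ T, v ∈ verts t → w ∈ verts t → ∀ u ∈ verts t, A (p v u) = p w u) {x : V → ℝ}
    (hx : x ∈ geo T) (hv : 0 < x v) (hw : 0 < x w) : chartFun p w x = A (chartFun p v x) := by
  obtain ⟨_, h2, t, ht, h3⟩ := hx
  unfold chartFun
  rw [affine_sum A x _ h2]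
  apply Finset.sum_congr rfl
  intro u _
  by_cases hu : x u = 0
  · rw [hu, zero_smul, zero_smul]
  · rw [hA t ht (h3 v hv.ne') (h3 w hw.ne') u (h3 u hu)]

omit [Fintype V] in
/-- an affine map which maps a positive frame at `v` to a positive frame is bijective -/
lemma affine_bijective (h : IsAffineComplex T p) {v w : V} {A : E3 →ᵃ[ℝ] E3}
    (hA : ∀ t ∈ T, v ∈ verts t → w ∈ verts t → ∀ u ∈ verts t, A (p v u) = p w u)
    {t : Tet V} (ht : t ∈ T) (hv : v ∈ verts t) (hw : w ∈ verts t) : Function.Bijective A := by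
  -- surjectivity suffices: the image contains the affine span of the vertices of t in the chart w
  have hlin : Function.Surjective A.linear := by
    obtain ⟨s, hs⟩ := linkOf_exists hw
    have hD := (h.fan w).pos s (mem_link.mpr ⟨t, ht, hs⟩)
    have hvt := linkOf_verts hs
    have hd : ∀ a, a ∈ verts t → ∃ x, A.linear x = p w a := by
      intro a ha
      refine ⟨p v a - p v w, ?_⟩
      have h1 := A.linearMap_vsub (p v a) (p v w)
      simp only [vsub_eq_sub] at h1
      rw [h1, hA t ht hv hw a ha, hA t ht hv hw w hw, h.center w, sub_zero]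
    intro y
    obtain ⟨r1, r2, r3, hy⟩ := exists_comb hD y
    obtain ⟨x1, hx1⟩ := hd s.1 ((hvt _).mpr (by tauto))
    obtain ⟨x2, hx2⟩ := hd s.2.1 ((hvt _).mpr (by tauto))
    obtain ⟨x3, hx3⟩ := hd s.2.2 ((hvt _).mpr (by tauto))
    refine ⟨r1 • x1 + r2 • x2 + r3 • x3, ?_⟩
    rw [map_add, map_add, map_smul, map_smul, map_smul, hx1, hx2, hx3, hy]
  have hinj : Function.Injective A.linear := LinearMap.injective_iff_surjective.mpr hlin
  exact A.linear_bijective_iff.mp ⟨hinj, hlin⟩

/-- **The transition maps are affine** -/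
theorem chart_trans (h : IsAffineComplex T p) (v w : V) : ∃ A : E3 ≃ᵃ[ℝ] E3,
    ∀ x ∈ (chart h v).source ∩ (chart h w).source, chart h w x = A (chart h v x) := by
  obtain ⟨A, hA⟩ := h.trans v w
  by_cases hex : ∃ t ∈ T, v ∈ verts t ∧ w ∈ verts t
  · obtain ⟨t, ht, hv, hw⟩ := hex
    refine ⟨AffineEquiv.ofBijective (affine_bijective h hA ht hv hw), ?_⟩
    rintro x ⟨hxv, hxw⟩
    exact trans_apply hA x.2 hxv hxw
  · refine ⟨AffineEquiv.refl ℝ E3, ?_⟩
    rintro x ⟨hxv, hxw⟩
    exfalso
    obtain ⟨_, _, t, ht, h3⟩ := x.2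
    exact hex ⟨t, ht, h3 v (ne_of_gt hxv), h3 w (ne_of_gt hxw)⟩

/-- **Summary**: the geometric realization of an affine complex is a compact connected Hausdorff space
with an affine atlas. -/
theorem closedAffine (h : IsAffineComplex T p) [Nonempty V] :
    CompactSpace (geo T) ∧ T2Space (geo T) ∧ SecondCountableTopology (geo T) ∧ ConnectedSpace (geo T) ∧
    ∃ c : V → OpenPartialHomeomorph (geo T) E3,
      (∀ v, (c v).source = {x | 0 < x.1 v}) ∧
      (∀ v x, c v x = ∑ w, x.1 w • p v w) ∧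
      (∀ x, ∃ v, x ∈ (c v).source) ∧
      ∀ v w, ∃ A : E3 ≃ᵃ[ℝ] E3, ∀ x ∈ (c v).source ∩ (c w).source, c w x = A (c v x) :=
  ⟨inferInstance, inferInstance, inferInstance, geo_connectedSpace h, chart h, fun _ => rfl, fun _ _ => rfl,
    chart_cover h, chart_trans h⟩

end Pool.Agent.Helper66.AF
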