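import Pool.Agent.Helper66.AF.Real

/-!
The charts of the geometric realization.
-/

set_option autoImplicit false

namespace Pool.Agent.Helper66.AF

open Filter Topology

variable {V : Type*} [Fintype V] [DecidableEq V]

/-- the sum over all vertices of a function supported on a triangle -/
lemma sum_eq_comb {p : V → E3} {f : V → ℝ} {t : V × V × V} (h1 : t.1 ≠ t.2.1) (h2 : t.2.1 ≠ t.2.2)
    (h3 : t.1 ≠ t.2.2) (hf : ∀ v, f v ≠ 0 → v = t.1 ∨ v = t.2.1 ∨ v = t.2.2) :
    ∑ w, f w • p w = comb p f t := by
  have hsub : ∑ w, f w • p w = ∑ w ∈ ({t.1, t.2.1, t.2.2} : Finset V), f w • p w := by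
    symm
    apply Finset.sum_subset (Finset.subset_univ _)
    intro w _ hw
    by_cases h0 : f w = 0
    · rw [h0, zero_smul]
    · exfalso; apply hw
      rcases hf w h0 with h | h | h <;> simp [h]
  rw [hsub, Finset.sum_insert, Finset.sum_insert, Finset.sum_singleton]
  · unfold comb; abel
  · simpa using h2
  · simp [h1, h3]

lemma sum_eq_three {f : V → ℝ} {t : V × V × V} (h1 : t.1 ≠ t.2.1) (h2 : t.2.1 ≠ t.2.2)
    (h3 : t.1 ≠ t.2.2) (hf : ∀ v, f v ≠ 0 → v = t.1 ∨ v = t.2.1 ∨ v = t.2.2) :
    ∑ w, f w = f t.1 + f t.2.1 + f t.2.2 := by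
  have hsub : ∑ w, f w = ∑ w ∈ ({t.1, t.2.1, t.2.2} : Finset V), f w := by
    symm
    apply Finset.sum_subset (Finset.subset_univ _)
    intro w _ hw
    by_contra h0
    apply hw
    rcases hf w h0 with h | h | h <;> simp [h]
  rw [hsub, Finset.sum_insert, Finset.sum_insert, Finset.sum_singleton]
  · ring
  · simpa using h2
  · simp [h1, h3]

/-- removing the coordinate `v` -/
def drop (v : V) (x : V → ℝ) : V → ℝ := fun w => if w = v then 0 else x w

omit [Fintype V] in
lemma drop_nonneg {v : V} {x : V → ℝ} (hx : ∀ w, 0 ≤ x w) (w : V) : 0 ≤ drop v x w := by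
  unfold drop; split_ifs
  · exact le_rfl
  · exact hx w

lemma sum_drop {v : V} {x : V → ℝ} {p : V → E3} (hp : p v = 0) : ∑ w, x w • p w = ∑ w, drop v x w • p w := by
  apply Finset.sum_congr rfl
  intro w _
  unfold drop
  split_ifs with h
  · rw [h, hp, smul_zero, smul_zero]
  · rfl

lemma sum_drop' {v : V} {x : V → ℝ} : ∑ w, drop v x w = (∑ w, x w) - x v := by
  have : ∑ w, x w = ∑ w, (drop v x w + (if w = v then x v else 0)) := by
    apply Finset.sum_congr rfl
    intro w _
    unfold drop
    split_ifs with h
    · rw [h, zero_add]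
    · rw [add_zero]
  rw [this, Finset.sum_add_distrib, Finset.sum_ite_eq' Finset.univ v (fun _ => x v)]
  simp

variable {T : List (Tet V)} {p : V → V → E3}

/-- a point of the open star of `v` is supported on a triangle of the link of `v` -/
lemma star_support {x : V → ℝ} (hx : x ∈ geo T) {v : V} (hv : 0 < x v) :
    ∃ t ∈ T, (∀ w, x w ≠ 0 → w ∈ verts t) ∧ ∃ s ∈ linkOf v t,
      ∀ w, drop v x w ≠ 0 → w = s.1 ∨ w = s.2.1 ∨ w = s.2.2 := by
  obtain ⟨_, _, t, ht, hsupp⟩ := hx
  have hvt : v ∈ verts t := hsupp v hv.ne'
  obtain ⟨s, hs⟩ := linkOf_exists hvt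
  refine ⟨t, ht, hsupp, s, hs, ?_⟩
  intro w hw
  unfold drop at hw
  split_ifs at hw with h
  · exact absurd rfl hw
  · have := hsupp w hw
    rw [linkOf_verts hs] at this
    rcases this with h' | h' | h' | h'
    · exact absurd h' h
    · exact Or.inl h'
    · exact Or.inr (Or.inl h')
    · exact Or.inr (Or.inr h')

/-- the chart at `v` as a function of the barycentric coordinates -/
noncomputable def chartFun (p : V → V → E3) (v : V) (x : V → ℝ) : E3 := ∑ w, x w • p v w

omit [DecidableEq V] in
lemma chartFun_continuous (p : V → V → E3) (v : V) : Continuous (chartFun p v) := by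
  unfold chartFun
  fun_prop

lemma chartFun_coord (h : IsAffineComplex T p) {x : V → ℝ} (hx : x ∈ geo T) {v : V} (hv : 0 < x v) :
    coord (h.fan v) (chartFun p v x) = drop v x := by
  obtain ⟨t, ht, _, s, hs, hsupp⟩ := star_support hx hv
  have hsL : s ∈ link T v := mem_link.mpr ⟨t, ht, hs⟩
  obtain ⟨_, _, _, d1, d2, d3⟩ := fan_distinct (h.fan v) (h.center v) hsL
  have e : chartFun p v x = comb (p v) (drop v x) s := by
    unfold chartFun
    rw [sum_drop (h.center v), sum_eq_comb d1 d2 d3 hsupp]
  rw [e]
  exact coord_unique (h.fan v) hsL (drop_nonneg hx.1) hsupp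

/-- the inverse of the chart at `v`, in barycentric coordinates -/
noncomputable def invFunR (h : IsAffineComplex T p) (v : V) (y : E3) : V → ℝ :=
  fun w => if w = v then 1 - ∑ u, coord (h.fan v) y u else coord (h.fan v) y w

lemma invFunR_continuous (h : IsAffineComplex T p) (v : V) : Continuous (invFunR h v) := by
  rw [continuous_pi_iff]
  intro w
  have hc := coord_continuous (h.fan v)
  unfold invFunR
  split_ifs
  · exact continuous_const.sub (continuous_finsetSum _ (fun u _ => (continuous_apply u).comp hc))
  · exact (continuous_apply w).comp hc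

omit [Fintype V] in
lemma coord_center (h : IsAffineComplex T p) (v : V) (y : E3) : coord (h.fan v) y v = 0 := by
  obtain ⟨t, ht, _, h2, _⟩ := coord_spec (h.fan v) y
  obtain ⟨d1, d2, d3, _⟩ := fan_distinct (h.fan v) (h.center v) ht
  by_contra hne
  rcases h2 v hne with e | e | e
  · exact d1 e
  · exact d2 e
  · exact d3 e

lemma invFunR_drop (h : IsAffineComplex T p) (v : V) (y : E3) :
    drop v (invFunR h v y) = coord (h.fan v) y := by
  funext w
  unfold drop
  split_ifs with hw
  · rw [hw, coord_center h]
  · unfold invFunR; rw [if_neg hw]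

lemma invFunR_mem (h : IsAffineComplex T p) (v : V) {y : E3} (hy : ∑ u, coord (h.fan v) y u < 1) :
    invFunR h v y ∈ geo T := by
  obtain ⟨s, hs, h1, h2, _⟩ := coord_spec (h.fan v) y
  refine ⟨?_, ?_, ?_⟩
  · intro w
    unfold invFunR
    split_ifs
    · linarith
    · exact h1 w
  · have e := sum_drop' (v := v) (x := invFunR h v y)
    rw [invFunR_drop] at e
    have e2 : invFunR h v y v = 1 - ∑ u, coord (h.fan v) y u := by unfold invFunR; rw [if_pos rfl]
    linarith
  · obtain ⟨t, ht, hst⟩ := mem_link.mp hs
    refine ⟨t, ht, fun w hw => ?_⟩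
    rw [linkOf_verts hst]
    by_cases hwv : w = v
    · left; exact hwv
    · right
      apply h2
      unfold invFunR at hw
      rwa [if_neg hwv] at hw

lemma chartFun_invFunR (h : IsAffineComplex T p) (v : V) (y : E3) : chartFun p v (invFunR h v y) = y := by
  obtain ⟨s, hs, h1, h2, h3⟩ := coord_spec (h.fan v) y
  obtain ⟨_, _, _, d1, d2, d3⟩ := fan_distinct (h.fan v) (h.center v) hs
  unfold chartFun
  rw [sum_drop (h.center v), invFunR_drop, sum_eq_comb d1 d2 d3 h2, h3]

lemma geo_nonempty (h : IsAffineComplex T p) (v : V) : (geo T).Nonempty := by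
  refine ⟨invFunR h v 0, invFunR_mem h v ?_⟩
  obtain ⟨s, hs, _⟩ := (h.fan v).cover 0
  have e : coord (h.fan v) 0 = fun _ => 0 := by
    have := coord_unique (h.fan v) (f := fun _ => 0) hs (fun _ => le_rfl) (fun v hv => absurd rfl hv)
    have e2 : comb (p v) (fun _ => (0 : ℝ)) s = 0 := by simp [comb]
    rw [e2] at this
    exact this
  rw [e]
  simp

/-- the inverse of the chart -/
noncomputable def invFunG (h : IsAffineComplex T p) (v : V) (y : E3) : geo T := by
  classical
  exact if hy : ∑ u, coord (h.fan v) y u < 1 then ⟨invFunR h v y, invFunR_mem h v hy⟩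
    else ⟨(geo_nonempty h v).choose, (geo_nonempty h v).choose_spec⟩

lemma invFunG_val (h : IsAffineComplex T p) (v : V) {y : E3} (hy : ∑ u, coord (h.fan v) y u < 1) :
    (invFunG h v y).1 = invFunR h v y := by
  unfold invFunG
  rw [dif_pos hy]

/-- **The chart at the vertex `v`**: source the open star of `v`; in barycentric coordinates it is the
restriction of the linear map `x ↦ ∑ x_w p_v(w)`. -/
noncomputable def chart (h : IsAffineComplex T p) (v : V) : OpenPartialHomeomorph (geo T) E3 where
  toFun x := chartFun p v x.1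
  invFun y := invFunG h v y
  source := {x | 0 < x.1 v}
  target := {y | ∑ u, coord (h.fan v) y u < 1}
  map_source' := by
    intro x hx
    simp only [Set.mem_ofPred_eq] at hx ⊢
    rw [chartFun_coord h x.2 hx, sum_drop', x.2.2.1]
    linarith
  map_target' := by
    intro y hy
    simp only [Set.mem_ofPred_eq] at hy ⊢
    rw [invFunG_val h v hy]
    unfold invFunR
    rw [if_pos rfl]
    linarith
  left_inv' := by
    intro x hx
    simp only [Set.mem_ofPred_eq] at hx
    apply Subtype.ext
    have hc := chartFun_coord h x.2 hx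
    have hlt : ∑ u, coord (h.fan v) (chartFun p v x.1) u < 1 := by
      rw [hc, sum_drop', x.2.2.1]; linarith
    rw [invFunG_val h v hlt]
    funext w
    unfold invFunR
    rw [hc, sum_drop', x.2.2.1]
    split_ifs with hw
    · rw [hw]; ring
    · unfold drop; rw [if_neg hw]
  right_inv' := by
    intro y hy
    simp only [Set.mem_ofPred_eq] at hy
    rw [invFunG_val h v hy]
    exact chartFun_invFunR h v y
  open_source := isOpen_lt continuous_const ((continuous_apply v).comp continuous_subtype_val)
  open_target := by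
    have hc := coord_continuous (h.fan v)
    exact isOpen_lt (continuous_finsetSum _ (fun u _ => (continuous_apply u).comp hc)) continuous_const
  continuousOn_toFun := ((chartFun_continuous p v).comp continuous_subtype_val).continuousOn
  continuousOn_invFun := by
    rw [Topology.IsInducing.subtypeVal.continuousOn_iff]
    refine (invFunR_continuous h v).continuousOn.congr ?_
    intro y hy
    exact invFunG_val h v hy

lemma chart_source (h : IsAffineComplex T p) (v : V) : (chart h v).source = {x | 0 < x.1 v} := rfl

lemma chart_apply (h : IsAffineComplex T p) (v : V) (x : geo T) : chart h v x = ∑ w, x.1 w • p v w := rfl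

/-- the charts cover -/
lemma chart_cover (h : IsAffineComplex T p) (x : geo T) : ∃ v, x ∈ (chart h v).source := by
  by_contra hcon
  push Not at hcon
  have h0 : ∀ v, x.1 v = 0 := fun v => by
    have := hcon v
    rw [chart_source] at this
    simp only [Set.mem_ofPred_eq, not_lt] at this
    exact le_antisymm this (x.2.1 v)
  have h1 := x.2.2.1
  simp [h0] at h1

end Pool.Agent.Helper66.AF
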