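import Pool.Agent.Helper66.AF.Defs

/-!
Degree one implies completeness of a fan.
-/

set_option autoImplicit false

namespace Pool.Agent.Helper66.AF

open Filter Topology

lemma cramer (a b c z : E3) :
    det3 a b c • z = det3 z b c • a + det3 a z c • b + det3 a b z • c := by
  ext i
  fin_cases i <;> simp [det3] <;> ring

lemma det_comb1 (a b c : E3) (r s t : ℝ) : det3 (r • a + s • b + t • c) b c = r * det3 a b c := by
  simp [det3]; ring

lemma det_comb2 (a b c : E3) (r s t : ℝ) : det3 a (r • a + s • b + t • c) c = s * det3 a b c := by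
  simp [det3]; ring

lemma det_comb3 (a b c : E3) (r s t : ℝ) : det3 a b (r • a + s • b + t • c) = t * det3 a b c := by
  simp [det3]; ring

lemma det_cyc (a b c : E3) : det3 b c a = det3 a b c := by
  simp [det3]; ring

lemma det_swap (a b c : E3) : det3 b a c = - det3 a b c := by
  simp [det3]; ring

lemma det_cont1 (b c : E3) : Continuous fun z : E3 => det3 z b c := by
  unfold det3; fun_prop

lemma det_cont2 (a c : E3) : Continuous fun z : E3 => det3 a z c := by
  unfold det3; fun_prop

lemma det_cont3 (a b : E3) : Continuous fun z : E3 => det3 a b z := by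
  unfold det3; fun_prop

lemma comb_unique {a b c : E3} (hD : det3 a b c ≠ 0) {r s t r' s' t' : ℝ}
    (h : r • a + s • b + t • c = r' • a + s' • b + t' • c) : r = r' ∧ s = s' ∧ t = t' := by
  refine ⟨?_, ?_, ?_⟩
  · have := det_comb1 a b c r s t
    rw [h, det_comb1] at this
    exact (mul_right_cancel₀ hD this).symm
  · have := det_comb2 a b c r s t
    rw [h, det_comb2] at this
    exact (mul_right_cancel₀ hD this).symm
  · have := det_comb3 a b c r s t
    rw [h, det_comb3] at this
    exact (mul_right_cancel₀ hD this).symm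

/-- the sign as an integer -/
noncomputable def sg (x : ℝ) : ℤ := if 0 < x then 1 else if x < 0 then -1 else 0

lemma sg_neg (x : ℝ) : sg (-x) = - sg x := by
  unfold sg
  rcases lt_trichotomy x 0 with h | h | h
  · simp [h, not_lt.mpr h.le]
  · simp [h]
  · simp [h, not_lt.mpr h.le]

/-- twice the multiplicity with which `z` is in the cone -/
noncomputable def wt (a b c z : E3) : ℤ := by
  classical
  exact if InOpenCone a b c z then 2 else if InCone a b c z then 1 else 0

lemma wt_open {a b c z : E3} (h : InOpenCone a b c z) : wt a b c z = 2 := by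
  unfold wt; rw [if_pos h]

lemma wt_mid {a b c z : E3} (h : ¬ InOpenCone a b c z) (h' : InCone a b c z) : wt a b c z = 1 := by
  unfold wt; rw [if_neg h, if_pos h']

lemma wt_out {a b c z : E3} (h' : ¬ InCone a b c z) : wt a b c z = 0 := by
  have h : ¬ InOpenCone a b c z := fun h => h' ⟨h.1.le, h.2.1.le, h.2.2.le⟩
  unfold wt; rw [if_neg h, if_neg h']

lemma wt_nonneg (a b c z : E3) : 0 ≤ wt a b c z := by
  by_cases h' : InCone a b c z
  · by_cases h : InOpenCone a b c z
    · rw [wt_open h]; norm_num
    · rw [wt_mid h h']; norm_num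
  · rw [wt_out h']

lemma wt_pos_iff {a b c z : E3} : 0 < wt a b c z ↔ InCone a b c z := by
  by_cases h' : InCone a b c z
  · by_cases h : InOpenCone a b c z
    · rw [wt_open h]; simp [h']
    · rw [wt_mid h h']; simp [h']
  · rw [wt_out h']; simp [h']

/-- `z` is in the relatively open two-dimensional cone of `a, b` -/
def InWall (a b z : E3) : Prop := ∃ s t : ℝ, 0 < s ∧ 0 < t ∧ z = s • a + t • b

lemma inWall_symm {a b z : E3} : InWall b a z ↔ InWall a b z := by
  constructor
  · rintro ⟨s, t, hs, ht, h⟩; exact ⟨t, s, ht, hs, by rw [h, add_comm]⟩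
  · rintro ⟨s, t, hs, ht, h⟩; exact ⟨t, s, ht, hs, by rw [h, add_comm]⟩

/-- the contribution of the wall `a, b` at `z` -/
noncomputable def wall (z a b z' : E3) : ℤ := by
  classical
  exact if InWall a b z then sg (det3 a b z') else 0

lemma wall_odd (z a b z' : E3) : wall z b a z' = - wall z a b z' := by
  unfold wall
  by_cases h : InWall a b z
  · rw [if_pos h, if_pos (inWall_symm.mpr h), det_swap, sg_neg]
  · rw [if_neg h, if_neg (fun h' => h (inWall_symm.mp h')), neg_zero]

/-- membership in a wall of the cone, in terms of the three determinants -/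
lemma inWall_iff {a b c z : E3} (hD : 0 < det3 a b c) :
    InWall a b z ↔ (0 < det3 z b c ∧ 0 < det3 a z c ∧ det3 a b z = 0) := by
  constructor
  · rintro ⟨s, t, hs, ht, h⟩
    have h' : z = s • a + t • b + (0 : ℝ) • c := by rw [h]; simp
    rw [h', det_comb1, det_comb2, det_comb3]
    exact ⟨by positivity, by positivity, by simp⟩
  · rintro ⟨h1, h2, h3⟩
    refine ⟨det3 z b c / det3 a b c, det3 a z c / det3 a b c, by positivity, by positivity, ?_⟩
    have := cramer a b c z
    rw [h3, zero_smul, add_zero] at this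
    have h4 : z = (det3 a b c)⁻¹ • (det3 a b c • z) := by
      rw [smul_smul, inv_mul_cancel₀ hD.ne', one_smul]
    rw [this, smul_add, smul_smul, smul_smul] at h4
    rw [div_eq_inv_mul, div_eq_inv_mul]
    exact h4

lemma ray_of_two {a b c z : E3} (hD : 0 < det3 a b c) (h1 : 0 ≤ det3 z b c) (h2 : det3 a z c = 0)
    (h3 : det3 a b z = 0) : ∃ t : ℝ, 0 ≤ t ∧ z = t • a := by
  refine ⟨det3 z b c / det3 a b c, by positivity, ?_⟩
  have := cramer a b c z
  rw [h3, zero_smul, add_zero, h2, zero_smul, add_zero] at this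
  have h4 : z = (det3 a b c)⁻¹ • (det3 a b c • z) := by
    rw [smul_smul, inv_mul_cancel₀ hD.ne', one_smul]
  rw [this, smul_smul] at h4
  rw [div_eq_inv_mul]
  exact h4

lemma local_tri {a b c z : E3} (hD : 0 < det3 a b c)
    (ha : ∀ t : ℝ, 0 ≤ t → z ≠ t • a) (hb : ∀ t : ℝ, 0 ≤ t → z ≠ t • b) (hc : ∀ t : ℝ, 0 ≤ t → z ≠ t • c) :
    ∀ᶠ z' in 𝓝 z, wt a b c z' - wt a b c z = wall z a b z' + wall z b c z' + wall z c a z' := by
  classical
  have hD2 : 0 < det3 b c a := by rw [det_cyc]; exact hD
  have hD3 : 0 < det3 c a b := by rw [det_cyc, det_cyc]; exact hD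
  have e1 : ∀ w : E3, det3 w c a = det3 a w c := fun w => by simp [det3]; ring
  have e2 : ∀ w : E3, det3 b w a = det3 a b w := fun w => by simp [det3]; ring
  have e3 : ∀ w : E3, det3 b c w = det3 w b c := fun w => by simp [det3]; ring
  have e4 : ∀ w : E3, det3 w a b = det3 a b w := fun w => by simp [det3]; ring
  have e5 : ∀ w : E3, det3 c w b = det3 w b c := fun w => by simp [det3]; ring
  have e6 : ∀ w : E3, det3 c a w = det3 a w c := fun w => by simp [det3]; ring
  have w1 := inWall_iff (z := z) hD
  have w2 := inWall_iff (z := z) hD2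
  have w3 := inWall_iff (z := z) hD3
  rw [e1, e2, e3] at w2
  rw [e4, e5, e6] at w3
  have c1 := (det_cont1 b c).continuousAt (x := z)
  have c2 := (det_cont2 a c).continuousAt (x := z)
  have c3 := (det_cont3 a b).continuousAt (x := z)
  have P : ∀ {f : E3 → ℝ}, ContinuousAt f z → 0 < f z → ∀ᶠ z' in 𝓝 z, 0 < f z' :=
    fun hf h => hf.eventually (lt_mem_nhds h)
  have N : ∀ {f : E3 → ℝ}, ContinuousAt f z → f z < 0 → ∀ᶠ z' in 𝓝 z, f z' < 0 :=
    fun hf h => hf.eventually (gt_mem_nhds h)
  -- some determinant negative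
  have neg : (det3 z b c < 0 ∨ det3 a z c < 0 ∨ det3 a b z < 0) →
      ∀ᶠ z' in 𝓝 z, wt a b c z' - wt a b c z = wall z a b z' + wall z b c z' + wall z c a z' := by
    intro h
    have hout : ¬ InCone a b c z := by
      rintro ⟨h1, h2, h3⟩
      rcases h with h | h | h <;> linarith
    have n1 : ¬ InWall a b z := fun hw => by
      obtain ⟨q1, q2, q3⟩ := w1.mp hw; rcases h with h | h | h <;> linarith
    have n2 : ¬ InWall b c z := fun hw => by
      obtain ⟨q1, q2, q3⟩ := w2.mp hw; rcases h with h | h | h <;> linarith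
    have n3 : ¬ InWall c a z := fun hw => by
      obtain ⟨q1, q2, q3⟩ := w3.mp hw; rcases h with h | h | h <;> linarith
    have hev : ∀ᶠ z' in 𝓝 z, ¬ InCone a b c z' := by
      rcases h with h | h | h
      · filter_upwards [N c1 h] with z' hz' hin using absurd hin.1 (not_le.mpr hz')
      · filter_upwards [N c2 h] with z' hz' hin using absurd hin.2.1 (not_le.mpr hz')
      · filter_upwards [N c3 h] with z' hz' hin using absurd hin.2.2 (not_le.mpr hz')
    filter_upwards [hev] with z' hz'
    rw [wt_out hz', wt_out hout]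
    simp [wall, n1, n2, n3]
  rcases lt_trichotomy (det3 z b c) 0 with g1 | g1 | g1
  · exact neg (Or.inl g1)
  · rcases lt_trichotomy (det3 a z c) 0 with g2 | g2 | g2
    · exact neg (Or.inr (Or.inl g2))
    · rcases lt_or_ge (det3 a b z) 0 with g3 | g3
      · exact neg (Or.inr (Or.inr g3))
      · exfalso
        obtain ⟨t, ht, h⟩ := ray_of_two (a := c) (b := a) (c := b) (z := z) hD3 (by rw [e4]; exact g3)
          (by rw [e5]; exact g1) (by rw [e6]; exact g2)
        exact hc t ht h
    · rcases lt_trichotomy (det3 a b z) 0 with g3 | g3 | g3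
      · exact neg (Or.inr (Or.inr g3))
      · exfalso
        obtain ⟨t, ht, h⟩ := ray_of_two (a := b) (b := c) (c := a) (z := z) hD2 (by rw [e1]; exact g2.le)
          (by rw [e2]; exact g3) (by rw [e3]; exact g1)
        exact hb t ht h
      · -- wall b c
        have n1 : ¬ InWall a b z := fun hw => by linarith [(w1.mp hw).1]
        have y2 : InWall b c z := w2.mpr ⟨g2, g3, g1⟩
        have n3 : ¬ InWall c a z := fun hw => by linarith [(w3.mp hw).2.1]
        have hz : wt a b c z = 1 := wt_mid (fun h => by linarith [h.1]) ⟨g1.ge, g2.le, g3.le⟩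
        filter_upwards [P c2 g2, P c3 g3] with z' h2 h3
        simp only [wall, n1, y2, n3, if_true, if_false, hz, e3, zero_add, add_zero]
        rcases lt_trichotomy (det3 z' b c) 0 with k | k | k
        · rw [wt_out (fun h => by linarith [h.1])]; simp [sg, k, not_lt.mpr k.le]
        · rw [wt_mid (fun h => by linarith [h.1]) ⟨k.ge, h2.le, h3.le⟩]; simp [sg, k]
        · rw [wt_open ⟨k, h2, h3⟩]; simp [sg, k]
  · rcases lt_trichotomy (det3 a z c) 0 with g2 | g2 | g2
    · exact neg (Or.inr (Or.inl g2))
    · rcases lt_trichotomy (det3 a b z) 0 with g3 | g3 | g3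
      · exact neg (Or.inr (Or.inr g3))
      · exfalso
        obtain ⟨t, ht, h⟩ := ray_of_two (a := a) (b := b) (c := c) (z := z) hD g1.le g2 g3
        exact ha t ht h
      · -- wall c a
        have n1 : ¬ InWall a b z := fun hw => by linarith [(w1.mp hw).2.1]
        have n2 : ¬ InWall b c z := fun hw => by linarith [(w2.mp hw).1]
        have y3 : InWall c a z := w3.mpr ⟨g3, g1, g2⟩
        have hz : wt a b c z = 1 := wt_mid (fun h => by linarith [h.2.1]) ⟨g1.le, g2.ge, g3.le⟩
        filter_upwards [P c1 g1, P c3 g3] with z' h1 h3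
        simp only [wall, n1, n2, y3, if_true, if_false, hz, e6, zero_add, add_zero]
        rcases lt_trichotomy (det3 a z' c) 0 with k | k | k
        · rw [wt_out (fun h => by linarith [h.2.1])]; simp [sg, k, not_lt.mpr k.le]
        · rw [wt_mid (fun h => by linarith [h.2.1]) ⟨h1.le, k.ge, h3.le⟩]; simp [sg, k]
        · rw [wt_open ⟨h1, k, h3⟩]; simp [sg, k]
    · rcases lt_trichotomy (det3 a b z) 0 with g3 | g3 | g3
      · exact neg (Or.inr (Or.inr g3))
      · -- wall a b
        have y1 : InWall a b z := w1.mpr ⟨g1, g2, g3⟩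
        have n2 : ¬ InWall b c z := fun hw => by linarith [(w2.mp hw).2.1]
        have n3 : ¬ InWall c a z := fun hw => by linarith [(w3.mp hw).1]
        have hz : wt a b c z = 1 := wt_mid (fun h => by linarith [h.2.2]) ⟨g1.le, g2.le, g3.ge⟩
        filter_upwards [P c1 g1, P c2 g2] with z' h1 h2
        simp only [wall, y1, n2, n3, if_true, if_false, hz, add_zero]
        rcases lt_trichotomy (det3 a b z') 0 with k | k | k
        · rw [wt_out (fun h => by linarith [h.2.2])]; simp [sg, k, not_lt.mpr k.le]
        · rw [wt_mid (fun h => by linarith [h.2.2]) ⟨h1.le, h2.le, k.ge⟩]; simp [sg, k]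
        · rw [wt_open ⟨h1, h2, k⟩]; simp [sg, k]
      · -- interior
        have n1 : ¬ InWall a b z := fun hw => by linarith [(w1.mp hw).2.2]
        have n2 : ¬ InWall b c z := fun hw => by linarith [(w2.mp hw).2.2]
        have n3 : ¬ InWall c a z := fun hw => by linarith [(w3.mp hw).2.2]
        have hz : wt a b c z = 2 := wt_open ⟨g1, g2, g3⟩
        filter_upwards [P c1 g1, P c2 g2, P c3 g3] with z' h1 h2 h3
        rw [wt_open ⟨h1, h2, h3⟩, hz]
        simp [wall, n1, n2, n3]

end Pool.Agent.Helper66.AF
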