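import Pool.Agent.Helper66.AF.Fan

/-!
Degree one implies completeness of a fan, part 2: paths, counting.
-/

set_option autoImplicit false

namespace Pool.Agent.Helper66.AF

open Filter Topology

lemma span_pair_ne_top (y p : E3) : Submodule.span ℝ ({y, p} : Set E3) ≠ ⊤ := by
  classical
  intro h
  have h1 : Module.finrank ℝ (Submodule.span ℝ ({y, p} : Set E3)) ≤ 2 := by
    have := finrank_span_le_card (R := ℝ) ({y, p} : Set E3)
    refine this.trans ?_
    have : ({y, p} : Set E3).toFinset = {y, p} := by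
      ext; simp
    rw [this]
    exact Finset.card_le_two
  rw [h, finrank_top] at h1
  simp at h1

lemma exists_generic (P : List E3) (y0 y1 : E3) :
    ∃ z : E3, ∀ p ∈ P, z ∉ Submodule.span ℝ ({y0, p} : Set E3) ∧ z ∉ Submodule.span ℝ ({y1, p} : Set E3) := by
  classical
  let s : Finset (Subspace ℝ E3) := (P.map (fun p => Submodule.span ℝ ({y0, p} : Set E3)) ++
    P.map (fun p => Submodule.span ℝ ({y1, p} : Set E3))).toFinset
  have hs : ⊤ ∉ s := by
    intro h
    simp only [s, List.mem_toFinset, List.mem_append, List.mem_map] at h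
    rcases h with ⟨p, _, h⟩ | ⟨p, _, h⟩
    · exact span_pair_ne_top y0 p h
    · exact span_pair_ne_top y1 p h
  have := Subspace.biUnion_ne_univ_of_top_notMem hs
  rw [Set.ne_univ_iff_exists_notMem] at this
  obtain ⟨z, hz⟩ := this
  refine ⟨z, fun p hp => ⟨fun h => hz ?_, fun h => hz ?_⟩⟩
  · simp only [Set.mem_iUnion]
    refine ⟨_, ?_, h⟩
    simp only [s, List.mem_toFinset, List.mem_append, List.mem_map]
    exact Or.inl ⟨p, hp, rfl⟩
  · simp only [Set.mem_iUnion]
    refine ⟨_, ?_, h⟩
    simp only [s, List.mem_toFinset, List.mem_append, List.mem_map]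
    exact Or.inr ⟨p, hp, rfl⟩

lemma seg_const (P : List E3) (S : Set E3) (hS : ∀ z, z ∉ S → ∃ p ∈ P, ∃ t : ℝ, z = t • p)
    (f : E3 → ℤ) (hf : ∀ z ∈ S, ∀ᶠ z' in 𝓝 z, f z' = f z) {y z : E3} (hy : y ∈ S)
    (hz : ∀ p ∈ P, z ∉ Submodule.span ℝ ({y, p} : Set E3)) : f y = f z := by
  let c : ℝ → E3 := fun s => (1 - s) • y + s • z
  have hc : Continuous c := by fun_prop
  have hcS : ∀ s : ℝ, c s ∈ S := by
    intro s
    by_contra hns
    obtain ⟨p, hp, t, ht⟩ := hS _ hns
    by_cases hs : s = 0
    · apply hns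
      simpa [c, hs] using hy
    · apply hz p hp
      have : z = (-(s⁻¹ * (1 - s))) • y + (s⁻¹ * t) • p := by
        have h1 : s • z = t • p - (1 - s) • y := by
          rw [← ht]; simp [c]
        have h2 : z = s⁻¹ • (s • z) := by rw [smul_smul, inv_mul_cancel₀ hs, one_smul]
        rw [h2, h1, smul_sub, smul_smul, smul_smul, neg_smul]
        abel
      rw [this]
      refine Submodule.add_mem _ (Submodule.smul_mem _ _ (Submodule.subset_span ?_))
        (Submodule.smul_mem _ _ (Submodule.subset_span ?_)) <;> simp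
  have hcont : ContinuousOn (f ∘ c) (Set.Icc (0 : ℝ) 1) := by
    apply Continuous.continuousOn
    rw [continuous_iff_continuousAt]
    intro s
    have h1 : ∀ᶠ s' in 𝓝 s, f (c s') = f (c s) := hc.continuousAt.eventually (hf _ (hcS s))
    exact (continuousAt_const (y := f (c s))).congr (h1.mono fun s' hs' => hs'.symm)
  have := isPreconnected_Icc.constant hcont (x := 0) (y := 1) (by simp) (by simp)
  simpa [c] using this

/-- a locally constant function on a set whose complement is contained in finitely many lines is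
constant -/
lemma path_const (P : List E3) (S : Set E3) (hS : ∀ z, z ∉ S → ∃ p ∈ P, ∃ t : ℝ, z = t • p)
    (f : E3 → ℤ) (hf : ∀ z ∈ S, ∀ᶠ z' in 𝓝 z, f z' = f z) {y0 y1 : E3} (h0 : y0 ∈ S) (h1 : y1 ∈ S) :
    f y0 = f y1 := by
  obtain ⟨z, hz⟩ := exists_generic P y0 y1
  rw [seg_const P S hS f hf h0 (fun p hp => (hz p hp).1), seg_const P S hS f hf h1 (fun p hp => (hz p hp).2)]

variable {V : Type*}

lemma odd_sum {E : List (V × V)} (hE : (E.map Prod.swap).Perm E) (G : V × V → ℤ)
    (hG : ∀ e, G e.swap = - G e) : (E.map G).sum = 0 := by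
  have h1 : (E.map G).sum = ((E.map Prod.swap).map G).sum := (hE.map G).symm.sum_eq
  have h2 : ((E.map Prod.swap).map G).sum = - (E.map G).sum := by
    rw [List.map_map]
    clear hE h1
    induction E with
    | nil => simp
    | cons e E ih =>
      simp only [List.map_cons, List.sum_cons, Function.comp_apply, hG]
      rw [Function.comp_def] at ih
      simp only [hG] at ih
      rw [Function.comp_def]
      simp only [hG]
      rw [ih]; ring
  linarith

lemma flat_sum (L : List (V × V × V)) (G : V × V → ℤ) : ((L.flatMap triEdges).map G).sum =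
    (L.map (fun t => G (t.1, t.2.1) + G (t.2.1, t.2.2) + G (t.2.2, t.1))).sum := by
  induction L with
  | nil => simp
  | cons t L ih =>
    simp only [List.flatMap_cons, List.map_append, List.sum_append, ih, List.map_cons, List.sum_cons, triEdges,
      List.map_nil, List.sum_nil]
    ring

lemma sum_sub' {α : Type*} (L : List α) (f g : α → ℤ) :
    (L.map f).sum - (L.map g).sum = (L.map (fun t => f t - g t)).sum := by
  induction L with
  | nil => simp
  | cons t L ih => simp only [List.map_cons, List.sum_cons]; rw [← ih]; ring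

lemma sum_le_of_ne {α : Type*} (L : List α) (w : α → ℤ) (hw : ∀ t, 0 ≤ w t) {s t : α} (hs : s ∈ L)
    (ht : t ∈ L) (hst : s ≠ t) : w s + w t ≤ (L.map w).sum := by
  obtain ⟨l1, l2, rfl⟩ := List.append_of_mem hs
  have hnn : ∀ l : List α, 0 ≤ (l.map w).sum := fun l => List.sum_nonneg (by
    intro x hx; obtain ⟨y, _, rfl⟩ := List.mem_map.mp hx; exact hw y)
  have hm : ∀ l : List α, t ∈ l → w t ≤ (l.map w).sum := by
    intro l hl
    obtain ⟨l3, l4, rfl⟩ := List.append_of_mem hl
    simp only [List.map_append, List.map_cons, List.sum_append, List.sum_cons]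
    linarith [hnn l3, hnn l4]
  simp only [List.map_append, List.map_cons, List.sum_append, List.sum_cons]
  rcases List.mem_append.mp ht with h | h
  · linarith [hm l1 h, hnn l2]
  · rcases List.mem_cons.mp h with h | h
    · exact absurd h.symm hst
    · linarith [hm l2 h, hnn l1]

lemma sum_le_of_ne3 {α : Type*} (L : List α) (w : α → ℤ) (hw : ∀ t, 0 ≤ w t) {r s t : α} (hr : r ∈ L)
    (hs : s ∈ L) (ht : t ∈ L) (hrs : r ≠ s) (hrt : r ≠ t) (hst : s ≠ t) :
    w r + w s + w t ≤ (L.map w).sum := by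
  obtain ⟨l1, l2, rfl⟩ := List.append_of_mem hr
  have hs' : s ∈ l1 ++ l2 := by
    rcases List.mem_append.mp hs with h | h
    · exact List.mem_append_left _ h
    · rcases List.mem_cons.mp h with h | h
      · exact absurd h.symm hrs
      · exact List.mem_append_right _ h
  have ht' : t ∈ l1 ++ l2 := by
    rcases List.mem_append.mp ht with h | h
    · exact List.mem_append_left _ h
    · rcases List.mem_cons.mp h with h | h
      · exact absurd h.symm hrt
      · exact List.mem_append_right _ h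
  have := sum_le_of_ne (l1 ++ l2) w hw hs' ht' hst
  simp only [List.map_append, List.map_cons, List.sum_append, List.sum_cons] at this ⊢
  linarith

/-- the total multiplicity (twice) -/
noncomputable def mult (L : List (V × V × V)) (p : V → E3) (z : E3) : ℤ :=
  (L.map (fun t => wt (p t.1) (p t.2.1) (p t.2.2) z)).sum

/-- points which are on no ray of the fan -/
def offRays (L : List (V × V × V)) (p : V → E3) : Set E3 :=
  {z | ∀ t ∈ L, (∀ r : ℝ, 0 ≤ r → z ≠ r • p t.1) ∧ (∀ r : ℝ, 0 ≤ r → z ≠ r • p t.2.1) ∧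
    (∀ r : ℝ, 0 ≤ r → z ≠ r • p t.2.2)}

lemma mult_local {L : List (V × V × V)} {p : V → E3} (h : IsFan L p) {z : E3} (hz : z ∈ offRays L p) :
    ∀ᶠ z' in 𝓝 z, mult L p z' = mult L p z := by
  have h1 : ∀ᶠ z' in 𝓝 z, ∀ t ∈ {t | t ∈ L}, wt (p t.1) (p t.2.1) (p t.2.2) z' - wt (p t.1) (p t.2.1) (p t.2.2) z =
      wall z (p t.1) (p t.2.1) z' + wall z (p t.2.1) (p t.2.2) z' + wall z (p t.2.2) (p t.1) z' := by
    rw [eventually_all_finite (List.finite_toSet L)]
    intro t ht
    exact local_tri (h.pos t ht) (hz t ht).1 (hz t ht).2.1 (hz t ht).2.2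
  filter_upwards [h1] with z' hz'
  have h2 : mult L p z' - mult L p z = 0 := by
    unfold mult
    rw [sum_sub']
    have h3 : (L.map (fun t => wt (p t.1) (p t.2.1) (p t.2.2) z' - wt (p t.1) (p t.2.1) (p t.2.2) z)) =
        L.map (fun t => (fun e : V × V => wall z (p e.1) (p e.2) z') (t.1, t.2.1) +
          (fun e : V × V => wall z (p e.1) (p e.2) z') (t.2.1, t.2.2) +
          (fun e : V × V => wall z (p e.1) (p e.2) z') (t.2.2, t.1)) :=
      List.map_congr_left (fun t ht => hz' t ht)
    rw [h3, ← flat_sum L (fun e : V × V => wall z (p e.1) (p e.2) z')]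
    exact odd_sum h.closed _ (fun e => wall_odd _ _ _ _)
  linarith

lemma offRays_compl {L : List (V × V × V)} {p : V → E3} (z : E3) (hz : z ∉ offRays L p) :
    ∃ t ∈ L, ∃ u, (u = t.1 ∨ u = t.2.1 ∨ u = t.2.2) ∧ ∃ r : ℝ, 0 ≤ r ∧ z = r • p u := by
  by_contra hcon
  push Not at hcon
  apply hz
  intro t ht
  exact ⟨fun r hr => hcon t ht t.1 (Or.inl rfl) r hr, fun r hr => hcon t ht t.2.1 (Or.inr (Or.inl rfl)) r hr,
    fun r hr => hcon t ht t.2.2 (Or.inr (Or.inr rfl)) r hr⟩

lemma inCone_rot {a b c y : E3} : InCone b c a y ↔ InCone a b c y := by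
  unfold InCone
  have e1 : det3 y c a = det3 a y c := by simp [det3]; ring
  have e2 : det3 b y a = det3 a b y := by simp [det3]; ring
  have e3 : det3 b c y = det3 y b c := by simp [det3]; ring
  rw [e1, e2, e3]
  tauto

lemma inOpenCone_rot {a b c y : E3} : InOpenCone b c a y ↔ InOpenCone a b c y := by
  unfold InOpenCone
  have e1 : det3 y c a = det3 a y c := by simp [det3]; ring
  have e2 : det3 b y a = det3 a b y := by simp [det3]; ring
  have e3 : det3 b c y = det3 y b c := by simp [det3]; ring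
  rw [e1, e2, e3]
  tauto

lemma inCone_comb {a b c : E3} (hD : 0 < det3 a b c) {r s t : ℝ} :
    InCone a b c (r • a + s • b + t • c) ↔ 0 ≤ r ∧ 0 ≤ s ∧ 0 ≤ t := by
  unfold InCone
  rw [det_comb1, det_comb2, det_comb3]
  simp only [mul_nonneg_iff_left_nonneg_of_pos hD]

lemma inOpenCone_comb {a b c : E3} (hD : 0 < det3 a b c) {r s t : ℝ} :
    InOpenCone a b c (r • a + s • b + t • c) ↔ 0 < r ∧ 0 < s ∧ 0 < t := by
  unfold InOpenCone
  rw [det_comb1, det_comb2, det_comb3]
  simp only [mul_pos_iff_of_pos_right hD]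

lemma exists_comb {a b c : E3} (hD : 0 < det3 a b c) (y : E3) :
    ∃ r s t : ℝ, y = r • a + s • b + t • c := by
  refine ⟨det3 y b c / det3 a b c, det3 a y c / det3 a b c, det3 a b y / det3 a b c, ?_⟩
  have := cramer a b c y
  have h4 : y = (det3 a b c)⁻¹ • (det3 a b c • y) := by
    rw [smul_smul, inv_mul_cancel₀ hD.ne', one_smul]
  rw [this, smul_add, smul_add, smul_smul, smul_smul, smul_smul] at h4
  rw [div_eq_inv_mul, div_eq_inv_mul, div_eq_inv_mul]
  exact h4

/-- `(u, a, b)` is a rotation of the triple `t` -/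
def IsRot (u a b : V) (t : V × V × V) : Prop := t = (u, a, b) ∨ t = (b, u, a) ∨ t = (a, b, u)

lemma IsRot.det {p : V → E3} {u a b : V} {t : V × V × V} (h : IsRot u a b t) :
    det3 (p t.1) (p t.2.1) (p t.2.2) = det3 (p u) (p a) (p b) := by
  rcases h with h | h | h
  · rw [h]
  · rw [h]; simp [det3]; ring
  · rw [h]; simp [det3]; ring

lemma IsRot.inCone {p : V → E3} {u a b : V} {t : V × V × V} (h : IsRot u a b t) {y : E3} :
    InCone (p t.1) (p t.2.1) (p t.2.2) y ↔ InCone (p u) (p a) (p b) y := by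
  rcases h with h | h | h
  · rw [h]
  · rw [h]; exact inCone_rot.symm
  · rw [h]; rw [inCone_rot]

lemma IsRot.inOpenCone {p : V → E3} {u a b : V} {t : V × V × V} (h : IsRot u a b t) {y : E3} :
    InOpenCone (p t.1) (p t.2.1) (p t.2.2) y ↔ InOpenCone (p u) (p a) (p b) y := by
  rcases h with h | h | h
  · rw [h]
  · rw [h]; exact inOpenCone_rot.symm
  · rw [h]; rw [inOpenCone_rot]

lemma exists_rot {u : V} {t : V × V × V} (h : u = t.1 ∨ u = t.2.1 ∨ u = t.2.2) : ∃ a b, IsRot u a b t := by
  rcases h with h | h | h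
  · exact ⟨t.2.1, t.2.2, Or.inl (by rw [h])⟩
  · exact ⟨t.2.2, t.1, Or.inr (Or.inl (by rw [h]))⟩
  · exact ⟨t.1, t.2.1, Or.inr (Or.inr (by rw [h]))⟩

lemma on_ray_inCone {L : List (V × V × V)} {p : V → E3} (h : IsFan L p) {t : V × V × V} (ht : t ∈ L) {u : V}
    (hu : u = t.1 ∨ u = t.2.1 ∨ u = t.2.2) {r : ℝ} (hr : 0 ≤ r) :
    InCone (p t.1) (p t.2.1) (p t.2.2) (r • p u) ∧ ¬ InOpenCone (p t.1) (p t.2.1) (p t.2.2) (r • p u) := by
  obtain ⟨a, b, hrot⟩ := exists_rot hu
  rw [hrot.inCone, hrot.inOpenCone]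
  have hD := h.pos t ht
  rw [hrot.det] at hD
  have e : r • p u = r • p u + (0 : ℝ) • p a + (0 : ℝ) • p b := by simp
  rw [e, inCone_comb hD, inOpenCone_comb hD]
  simp [hr]

lemma mult_eq {L : List (V × V × V)} {p : V → E3} (h : IsFan L p) {z : E3} (hz : z ∈ offRays L p) :
    mult L p z = 2 := by
  obtain ⟨y, t, L', hL, hopen, hout⟩ := h.degree
  have hy : y ∈ offRays L p := by
    by_contra hy
    obtain ⟨s, hs, u, hu, r, hr, rfl⟩ := offRays_compl y hy
    have := on_ray_inCone h hs hu hr
    rw [hL] at hs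
    rcases List.mem_cons.mp hs with hs | hs
    · rw [hs] at this; exact this.2 hopen
    · exact hout s hs this.1
  have h1 : mult L p y = 2 := by
    unfold mult
    rw [hL, List.map_cons, List.sum_cons, wt_open hopen]
    have : (L'.map (fun t => wt (p t.1) (p t.2.1) (p t.2.2) y)) = L'.map (fun _ => (0 : ℤ)) :=
      List.map_congr_left (fun s hs => wt_out (hout s hs))
    rw [this]; simp
  rw [← h1]
  refine path_const (L.flatMap (fun t => [p t.1, p t.2.1, p t.2.2])) (offRays L p) ?_ _
    (fun z hz => mult_local h hz) hz hy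
  intro z hz
  obtain ⟨t, ht, u, hu, r, _, hr⟩ := offRays_compl z hz
  refine ⟨p u, ?_, r, hr⟩
  rw [List.mem_flatMap]
  refine ⟨t, ht, ?_⟩
  rcases hu with hu | hu | hu <;> simp [hu]

/-- a complete fan covers `ℝ³` -/
theorem IsFan.cover {L : List (V × V × V)} {p : V → E3} (h : IsFan L p) (y : E3) :
    ∃ t ∈ L, InCone (p t.1) (p t.2.1) (p t.2.2) y := by
  by_cases hy : y ∈ offRays L p
  · have h1 := mult_eq h hy
    by_contra hcon
    push Not at hcon
    have : (L.map (fun t => wt (p t.1) (p t.2.1) (p t.2.2) y)) = L.map (fun _ => (0 : ℤ)) :=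
      List.map_congr_left (fun s hs => wt_out (hcon s hs))
    unfold mult at h1
    rw [this] at h1
    simp at h1
  · obtain ⟨s, hs, u, hu, r, hr, rfl⟩ := offRays_compl y hy
    exact ⟨s, hs, (on_ray_inCone h hs hu hr).1⟩

end Pool.Agent.Helper66.AF
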