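import Pool.Agent.Helper66.AF.Fan3

/-!
Degree one implies completeness of a fan, part 4: uniqueness of the coordinates.
-/

set_option autoImplicit false

namespace Pool.Agent.Helper66.AF

open Filter Topology

variable {V : Type*}

/-- the vector with coordinates `f` on the triangle `t` -/
def comb (p : V → E3) (f : V → ℝ) (t : V × V × V) : E3 :=
  f t.1 • p t.1 + f t.2.1 • p t.2.1 + f t.2.2 • p t.2.2

lemma IsRot.comb {p : V → E3} {f : V → ℝ} {u a b : V} {t : V × V × V} (h : IsRot u a b t) :
    comb p f t = f u • p u + f a • p a + f b • p b := by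
  unfold AF.comb
  rcases h with h | h | h
  · rw [h]
  · rw [h]; simp only; abel
  · rw [h]; simp only; abel

lemma IsRot.mem {u a b : V} {t : V × V × V} (h : IsRot u a b t) {v : V} (hv : v = t.1 ∨ v = t.2.1 ∨ v = t.2.2) :
    v = u ∨ v = a ∨ v = b := by
  rcases h with h | h | h <;> rw [h] at hv <;> simp only at hv <;> tauto

/-- the function is determined by the coordinates -/
lemma coords_eq {L : List (V × V × V)} {p : V → E3} (h : IsFan L p) {f : V → ℝ} {t : V × V × V} (ht : t ∈ L)
    {u a b : V} (hrot : IsRot u a b t) (hft : ∀ v, f v ≠ 0 → v = t.1 ∨ v = t.2.1 ∨ v = t.2.2) {r x y : ℝ}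
    (he : comb p f t = r • p u + x • p a + y • p b) :
    f u = r ∧ f a = x ∧ f b = y ∧ ∀ v, v ≠ u → v ≠ a → v ≠ b → f v = 0 := by
  have hD := h.pos t ht
  rw [hrot.det] at hD
  rw [hrot.comb] at he
  obtain ⟨h1, h2, h3⟩ := comb_unique hD.ne' he
  refine ⟨h1, h2, h3, fun v hu ha hb => ?_⟩
  by_contra hv
  rcases hrot.mem (hft v hv) with h | h | h
  · exact hu h
  · exact ha h
  · exact hb h

lemma edge_swap {L : List (V × V × V)} {p : V → E3} (h : IsFan L p) {a b c : V} {s : V × V × V} (hs : s ∈ L)
    (hrot : IsRot a b c s) : ∃ s' ∈ L, ∃ c', IsRot b a c' s' := by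
  have h1 : (a, b) ∈ L.flatMap triEdges := by
    rw [List.mem_flatMap]
    refine ⟨s, hs, ?_⟩
    rcases hrot with h | h | h <;> rw [h] <;> simp [triEdges]
  have h2 : (b, a) ∈ (L.flatMap triEdges).map Prod.swap := by
    rw [List.mem_map]
    exact ⟨(a, b), h1, rfl⟩
  rw [h.closed.mem_iff, List.mem_flatMap] at h2
  obtain ⟨s', hs', h3⟩ := h2
  refine ⟨s', hs', ?_⟩
  obtain ⟨x, y, z⟩ := s'
  simp only [triEdges, List.mem_cons, Prod.mk.injEq, List.not_mem_nil, or_false] at h3
  rcases h3 with ⟨h4, h5⟩ | ⟨h4, h5⟩ | ⟨h4, h5⟩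
  · exact ⟨z, Or.inl (by rw [h4, h5])⟩
  · exact ⟨x, Or.inr (Or.inl (by rw [h4, h5]))⟩
  · exact ⟨y, Or.inr (Or.inr (by rw [h4, h5]))⟩

lemma rot_ne {p : V → E3} {a b c c' : V} {s s' : V × V × V} (h : IsRot a b c s) (h' : IsRot b a c' s')
    (hD : 0 < det3 (p s.1) (p s.2.1) (p s.2.2)) (hD' : 0 < det3 (p s'.1) (p s'.2.1) (p s'.2.2)) : s ≠ s' := by
  rintro rfl
  have h1 := hD
  rw [h.det] at h1
  have h2 := hD
  rw [h'.det] at h2
  have hab : a ≠ b := by rintro rfl; rw [det3_self12] at h1; exact lt_irrefl _ h1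
  have hbc : b ≠ c := by rintro rfl; rw [det3_self23] at h1; exact lt_irrefl _ h1
  have hac : a ≠ c := by rintro rfl; rw [det3_self13] at h1; exact lt_irrefl _ h1
  have hac' : a ≠ c' := by rintro rfl; rw [det3_self23] at h2; exact lt_irrefl _ h2
  have hbc' : b ≠ c' := by rintro rfl; rw [det3_self13] at h2; exact lt_irrefl _ h2
  rcases h with h | h | h <;> rcases h' with h' | h' | h' <;> rw [h] at h' <;>
    simp only [Prod.mk.injEq] at h' <;> obtain ⟨e1, e2, e3⟩ := h'
  all_goals first | exact hab e1 | exact hab e2 | exact hab e3 | exact hab e1.symm | exact hab e2.symm | exact hab e3.symm | exact hac' e1 | exact hac' e2 | exact hac' e3 | exact hbc' e1 | exact hbc' e2 | exact hbc' e3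

/-- the coordinates of a vector in a complete fan are unique -/
theorem IsFan.unique {L : List (V × V × V)} {p : V → E3} (h : IsFan L p) {f g : V → ℝ} {s t : V × V × V}
    (hs : s ∈ L) (ht : t ∈ L) (hf0 : ∀ v, 0 ≤ f v) (hg0 : ∀ v, 0 ≤ g v)
    (hfs : ∀ v, f v ≠ 0 → v = s.1 ∨ v = s.2.1 ∨ v = s.2.2) (hgt : ∀ v, g v ≠ 0 → v = t.1 ∨ v = t.2.1 ∨ v = t.2.2)
    (heq : comb p f s = comb p g t) : f = g := by
  classical
  have hDs := h.pos s hs
  have hDt := h.pos t ht
  have hins : InCone (p s.1) (p s.2.1) (p s.2.2) (comb p f s) := by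
    unfold comb; rw [inCone_comb hDs]; exact ⟨hf0 _, hf0 _, hf0 _⟩
  have hint : InCone (p t.1) (p t.2.1) (p t.2.2) (comb p f s) := by
    rw [heq]; unfold comb; rw [inCone_comb hDt]; exact ⟨hg0 _, hg0 _, hg0 _⟩
  by_cases hz : comb p f s ∈ offRays L p
  · by_cases hst : s = t
    · subst hst
      obtain ⟨h1, h2, h3, h4⟩ := coords_eq h hs (u := s.1) (a := s.2.1) (b := s.2.2) (Or.inl rfl) hfs
        (heq.trans (by rfl : comb p g s = g s.1 • p s.1 + g s.2.1 • p s.2.1 + g s.2.2 • p s.2.2))
      funext v
      by_cases e1 : v = s.1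
      · rw [e1, h1]
      · by_cases e2 : v = s.2.1
        · rw [e2, h2]
        · by_cases e3 : v = s.2.2
          · rw [e3, h3]
          · rw [h4 v e1 e2 e3]
            by_contra hg
            rcases hgt v (Ne.symm hg) with h | h | h
            · exact e1 h
            · exact e2 h
            · exact e3 h
    · have hm := mult_eq h hz
      have hw : ∀ t : V × V × V, 0 ≤ wt (p t.1) (p t.2.1) (p t.2.2) (comb p f s) := fun t => wt_nonneg _ _ _ _
      have hle := sum_le_of_ne L (fun t => wt (p t.1) (p t.2.1) (p t.2.2) (comb p f s)) hw hs ht hst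
      unfold mult at hm
      rw [hm] at hle
      have h1s := wt_pos_iff.mpr hins
      have h1t := wt_pos_iff.mpr hint
      -- s is not open
      have hnopen : ¬ InOpenCone (p s.1) (p s.2.1) (p s.2.2) (comb p f s) := by
        intro ho
        rw [wt_open ho] at hle
        linarith
      -- a rotation with the last coefficient zero
      have hex : ∃ a b c, IsRot a b c s ∧ f c = 0 := by
        by_contra hcon
        push Not at hcon
        apply hnopen
        unfold comb
        rw [inOpenCone_comb hDs]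
        refine ⟨lt_of_le_of_ne (hf0 _) (hcon s.2.1 s.2.2 s.1 ?_).symm,
          lt_of_le_of_ne (hf0 _) (hcon s.2.2 s.1 s.2.1 ?_).symm,
          lt_of_le_of_ne (hf0 _) (hcon s.1 s.2.1 s.2.2 (Or.inl rfl)).symm⟩
        · right; left; rfl
        · right; right; rfl
      obtain ⟨a, b, c, hrot, hc⟩ := hex
      have hzz : comb p f s = f a • p a + f b • p b := by
        rw [hrot.comb, hc, zero_smul, add_zero]
      obtain ⟨s', hs', c', hrot'⟩ := edge_swap h hs hrot
      have hne : s ≠ s' := rot_ne hrot hrot' hDs (h.pos s' hs')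
      have hDs' := h.pos s' hs'
      have hin' : InCone (p s'.1) (p s'.2.1) (p s'.2.2) (comb p f s) := by
        rw [hrot'.inCone]
        rw [hrot'.det] at hDs'
        have e : comb p f s = f b • p b + f a • p a + (0 : ℝ) • p c' := by rw [hzz, zero_smul, add_zero, add_comm]
        rw [e, inCone_comb hDs']
        exact ⟨hf0 _, hf0 _, le_rfl⟩
      have hs't : s' = t := by
        by_contra hne'
        have h3 := sum_le_of_ne3 L (fun t => wt (p t.1) (p t.2.1) (p t.2.2) (comb p f s)) hw hs hs' ht hne hst hne'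
        rw [hm] at h3
        have h1' := wt_pos_iff.mpr hin'
        linarith
      subst hs't
      have hg := coords_eq h hs' hrot' hgt (r := f b) (x := f a) (y := 0)
        (by rw [← heq, hzz, zero_smul, add_zero, add_comm])
      have hf := coords_eq h hs hrot hfs (r := f a) (x := f b) (y := 0)
        (by rw [hzz, zero_smul, add_zero])
      funext v
      by_cases e1 : v = a
      · rw [e1, hg.2.1]
      · by_cases e2 : v = b
        · rw [e2, hg.1]
        · have hfv : f v = 0 := by
            by_cases e3 : v = c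
            · rw [e3, hc]
            · exact hf.2.2.2 v e1 e2 e3
          have hgv : g v = 0 := by
            by_cases e3 : v = c'
            · rw [e3, hg.2.2.1]
            · exact hg.2.2.2 v e2 e1 e3
          rw [hfv, hgv]
  · obtain ⟨s0, hs0, u, hu, r, hr, hzr⟩ := offRays_compl _ hz
    rcases hr.eq_or_lt with hr0 | hr0
    · -- zero
      have hz0 : comb p f s = 0 := by rw [hzr, ← hr0, zero_smul]
      have hf := coords_eq h hs (u := s.1) (a := s.2.1) (b := s.2.2) (Or.inl rfl) hfs (r := 0) (x := 0) (y := 0)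
        (by rw [hz0]; simp)
      have hg := coords_eq h ht (u := t.1) (a := t.2.1) (b := t.2.2) (Or.inl rfl) hgt (r := 0) (x := 0) (y := 0)
        (by rw [← heq, hz0]; simp)
      have hf' : ∀ v, f v = 0 := by
        intro v
        by_contra hv
        rcases hfs v hv with e | e | e
        · exact hv (by rw [e]; exact hf.1)
        · exact hv (by rw [e]; exact hf.2.1)
        · exact hv (by rw [e]; exact hf.2.2.1)
      have hg' : ∀ v, g v = 0 := by
        intro v
        by_contra hv
        rcases hgt v hv with e | e | e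
        · exact hv (by rw [e]; exact hg.1)
        · exact hv (by rw [e]; exact hg.2.1)
        · exact hv (by rw [e]; exact hg.2.2.1)
      funext v; rw [hf', hg']
    · have hus := ray_mem h hs0 hu hr0 hs (by rw [← hzr]; exact hins)
      have hut := ray_mem h hs0 hu hr0 ht (by rw [← hzr]; exact hint)
      obtain ⟨a, b, hrot⟩ := exists_rot hus
      obtain ⟨a', b', hrot'⟩ := exists_rot hut
      have hf := coords_eq h hs hrot hfs (r := r) (x := 0) (y := 0) (by rw [hzr]; simp)
      have hg := coords_eq h ht hrot' hgt (r := r) (x := 0) (y := 0) (by rw [← heq, hzr]; simp)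
      funext v
      by_cases e1 : v = u
      · rw [e1, hf.1, hg.1]
      · have hfv : f v = 0 := by
          by_cases e2 : v = a
          · rw [e2, hf.2.1]
          · by_cases e3 : v = b
            · rw [e3, hf.2.2.1]
            · exact hf.2.2.2 v e1 e2 e3
        have hgv : g v = 0 := by
          by_cases e2 : v = a'
          · rw [e2, hg.2.1]
          · by_cases e3 : v = b'
            · rw [e3, hg.2.2.1]
            · exact hg.2.2.2 v e1 e2 e3
        rw [hfv, hgv]

end Pool.Agent.Helper66.AF
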