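import Pool.Agent.Helper66.AF.Fan4

/-!
The geometric realization of an affine complex is a closed affine manifold.
-/

set_option autoImplicit false

namespace Pool.Agent.Helper66.AF

open Filter Topology

section Link

variable {V : Type*} [DecidableEq V]

lemma mem_link {T : List (Tet V)} {v : V} {s : V × V × V} : s ∈ link T v ↔ ∃ t ∈ T, s ∈ linkOf v t := by
  unfold link
  rw [List.mem_flatMap]

lemma linkOf_cases {v : V} {t : Tet V} {s : V × V × V} (hs : s ∈ linkOf v t) :
    (t.1 = v ∧ s = (t.2.1, t.2.2.1, t.2.2.2)) ∨ (t.2.1 = v ∧ s = (t.1, t.2.2.2, t.2.2.1)) ∨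
    (t.2.2.1 = v ∧ s = (t.2.2.2, t.1, t.2.1)) ∨ (t.2.2.2 = v ∧ s = (t.2.2.1, t.2.1, t.1)) := by
  unfold linkOf at hs
  rw [List.mem_append, List.mem_append, List.mem_append] at hs
  rcases hs with ((hs | hs) | hs) | hs
  · split_ifs at hs with h
    · left; exact ⟨h, List.mem_singleton.mp hs⟩
    · simp at hs
  · split_ifs at hs with h
    · right; left; exact ⟨h, List.mem_singleton.mp hs⟩
    · simp at hs
  · split_ifs at hs with h
    · right; right; left; exact ⟨h, List.mem_singleton.mp hs⟩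
    · simp at hs
  · split_ifs at hs with h
    · right; right; right; exact ⟨h, List.mem_singleton.mp hs⟩
    · simp at hs

lemma linkOf_verts {v : V} {t : Tet V} {s : V × V × V} (hs : s ∈ linkOf v t) (u : V) :
    u ∈ verts t ↔ (u = v ∨ u = s.1 ∨ u = s.2.1 ∨ u = s.2.2) := by
  unfold verts
  simp only [List.mem_cons, List.not_mem_nil, or_false]
  rcases linkOf_cases hs with ⟨h, h'⟩ | ⟨h, h'⟩ | ⟨h, h'⟩ | ⟨h, h'⟩ <;> rw [h'] <;> simp only <;>
    rw [← h] <;> tauto

lemma linkOf_exists {v : V} {t : Tet V} (hv : v ∈ verts t) : ∃ s, s ∈ linkOf v t := by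
  unfold verts at hv
  simp only [List.mem_cons, List.not_mem_nil, or_false] at hv
  unfold linkOf
  rcases hv with h | h | h | h
  · exact ⟨(t.2.1, t.2.2.1, t.2.2.2), by simp [h]⟩
  · exact ⟨(t.1, t.2.2.2, t.2.2.1), by simp [h]⟩
  · exact ⟨(t.2.2.2, t.1, t.2.1), by simp [h]⟩
  · exact ⟨(t.2.2.1, t.2.1, t.1), by simp [h]⟩

omit [DecidableEq V] in
/-- the vertices of a fan triangle and the centre are distinct -/
lemma fan_distinct {L : List (V × V × V)} {p : V → E3} (h : IsFan L p) {v : V} (hv : p v = 0)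
    {s : V × V × V} (hs : s ∈ L) : v ≠ s.1 ∧ v ≠ s.2.1 ∧ v ≠ s.2.2 ∧ s.1 ≠ s.2.1 ∧ s.2.1 ≠ s.2.2 ∧ s.1 ≠ s.2.2 := by
  have hD := h.pos s hs
  obtain ⟨a, b, c⟩ := s
  simp only at hD ⊢
  have z1 : det3 0 (p b) (p c) = 0 := by simp [det3]
  have z2 : det3 (p a) 0 (p c) = 0 := by simp [det3]
  have z3 : det3 (p a) (p b) 0 = 0 := by simp [det3]
  refine ⟨?_, ?_, ?_, ?_, ?_, ?_⟩
  · rintro rfl; rw [hv, z1] at hD; exact lt_irrefl _ hD
  · rintro rfl; rw [hv, z2] at hD; exact lt_irrefl _ hD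
  · rintro rfl; rw [hv, z3] at hD; exact lt_irrefl _ hD
  · rintro rfl; rw [det3_self12] at hD; exact lt_irrefl _ hD
  · rintro rfl; rw [det3_self23] at hD; exact lt_irrefl _ hD
  · rintro rfl; rw [det3_self13] at hD; exact lt_irrefl _ hD

end Link

section Coord

variable {V : Type*} [DecidableEq V]

/-- coordinates with respect to the cone `t` -/
noncomputable def coordT (p : V → E3) (t : V × V × V) (y : E3) (v : V) : ℝ :=
  if v = t.1 then det3 y (p t.2.1) (p t.2.2) / det3 (p t.1) (p t.2.1) (p t.2.2)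
  else if v = t.2.1 then det3 (p t.1) y (p t.2.2) / det3 (p t.1) (p t.2.1) (p t.2.2)
  else if v = t.2.2 then det3 (p t.1) (p t.2.1) y / det3 (p t.1) (p t.2.1) (p t.2.2)
  else 0

lemma coordT_continuous (p : V → E3) (t : V × V × V) : Continuous (coordT p t) := by
  rw [continuous_pi_iff]
  intro v
  unfold coordT
  split_ifs
  · exact (det_cont1 _ _).div_const _
  · exact (det_cont2 _ _).div_const _
  · exact (det_cont3 _ _).div_const _
  · exact continuous_const

lemma coordT_support {p : V → E3} {t : V × V × V} {y : E3} {v : V} (h : coordT p t y v ≠ 0) :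
    v = t.1 ∨ v = t.2.1 ∨ v = t.2.2 := by
  by_contra hcon
  push Not at hcon
  apply h
  unfold coordT
  rw [if_neg hcon.1, if_neg hcon.2.1, if_neg hcon.2.2]

lemma coordT_nonneg {p : V → E3} {t : V × V × V} (hD : 0 < det3 (p t.1) (p t.2.1) (p t.2.2)) {y : E3}
    (hy : InCone (p t.1) (p t.2.1) (p t.2.2) y) (v : V) : 0 ≤ coordT p t y v := by
  obtain ⟨h1, h2, h3⟩ := hy
  unfold coordT
  split_ifs
  · positivity
  · positivity
  · positivity
  · exact le_rfl

lemma coordT_comb {p : V → E3} {t : V × V × V} (hD : 0 < det3 (p t.1) (p t.2.1) (p t.2.2)) (y : E3) :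
    comb p (coordT p t y) t = y := by
  obtain ⟨a, b, c⟩ := t
  simp only at hD
  have hab : a ≠ b := by rintro rfl; rw [det3_self12] at hD; exact lt_irrefl _ hD
  have hbc : b ≠ c := by rintro rfl; rw [det3_self23] at hD; exact lt_irrefl _ hD
  have hac : a ≠ c := by rintro rfl; rw [det3_self13] at hD; exact lt_irrefl _ hD
  have e1 : coordT p (a, b, c) y a = det3 y (p b) (p c) / det3 (p a) (p b) (p c) := by simp [coordT]
  have e2 : coordT p (a, b, c) y b = det3 (p a) y (p c) / det3 (p a) (p b) (p c) := by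
    simp [coordT, hab.symm]
  have e3 : coordT p (a, b, c) y c = det3 (p a) (p b) y / det3 (p a) (p b) (p c) := by
    simp [coordT, hac.symm, hbc.symm]
  unfold comb
  simp only
  rw [e1, e2, e3]
  have := cramer (p a) (p b) (p c) y
  have h4 : y = (det3 (p a) (p b) (p c))⁻¹ • (det3 (p a) (p b) (p c) • y) := by
    rw [smul_smul, inv_mul_cancel₀ hD.ne', one_smul]
  rw [this, smul_add, smul_add, smul_smul, smul_smul, smul_smul] at h4
  rw [div_eq_inv_mul, div_eq_inv_mul, div_eq_inv_mul]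
  exact h4.symm

/-- the coordinates of a vector in a complete fan -/
noncomputable def coord {L : List (V × V × V)} {p : V → E3} (h : IsFan L p) (y : E3) : V → ℝ :=
  coordT p (h.cover y).choose y

lemma coord_eq {L : List (V × V × V)} {p : V → E3} (h : IsFan L p) {y : E3} {t : V × V × V} (ht : t ∈ L)
    (hy : InCone (p t.1) (p t.2.1) (p t.2.2) y) : coord h y = coordT p t y := by
  have hc := (h.cover y).choose_spec
  exact h.unique hc.1 ht (coordT_nonneg (h.pos _ hc.1) hc.2) (coordT_nonneg (h.pos _ ht) hy)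
    (fun v => coordT_support) (fun v => coordT_support)
    (by unfold coord; rw [coordT_comb (h.pos _ hc.1), coordT_comb (h.pos _ ht)])

lemma coord_spec {L : List (V × V × V)} {p : V → E3} (h : IsFan L p) (y : E3) :
    ∃ t ∈ L, (∀ v, 0 ≤ coord h y v) ∧ (∀ v, coord h y v ≠ 0 → v = t.1 ∨ v = t.2.1 ∨ v = t.2.2) ∧
      comb p (coord h y) t = y := by
  have hc := (h.cover y).choose_spec
  exact ⟨_, hc.1, coordT_nonneg (h.pos _ hc.1) hc.2, fun v => coordT_support, coordT_comb (h.pos _ hc.1) _⟩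

lemma coord_unique {L : List (V × V × V)} {p : V → E3} (h : IsFan L p) {f : V → ℝ} {t : V × V × V} (ht : t ∈ L)
    (hf0 : ∀ v, 0 ≤ f v) (hft : ∀ v, f v ≠ 0 → v = t.1 ∨ v = t.2.1 ∨ v = t.2.2) :
    coord h (comb p f t) = f := by
  obtain ⟨s, hs, h1, h2, h3⟩ := coord_spec h (comb p f t)
  exact h.unique hs ht h1 hf0 h2 hft h3

lemma coord_continuous {L : List (V × V × V)} {p : V → E3} (h : IsFan L p) : Continuous (coord h) := by
  let F : {t // t ∈ L} → Set E3 := fun t => {y | InCone (p t.1.1) (p t.1.2.1) (p t.1.2.2) y}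
  have hfin : Finite {t // t ∈ L} := (List.finite_toSet L)
  have hlf : LocallyFinite F := locallyFinite_of_finite F
  have hcov : ⋃ i, F i = Set.univ := by
    rw [Set.eq_univ_iff_forall]
    intro y
    obtain ⟨t, ht, hy⟩ := h.cover y
    exact Set.mem_iUnion.mpr ⟨⟨t, ht⟩, hy⟩
  refine hlf.continuous hcov ?_ ?_
  · intro t
    have e : F t = {y | 0 ≤ det3 y (p t.1.2.1) (p t.1.2.2)} ∩ ({y | 0 ≤ det3 (p t.1.1) y (p t.1.2.2)} ∩
        {y | 0 ≤ det3 (p t.1.1) (p t.1.2.1) y}) := rfl
    rw [e]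
    exact (isClosed_le continuous_const (det_cont1 _ _)).inter
      ((isClosed_le continuous_const (det_cont2 _ _)).inter (isClosed_le continuous_const (det_cont3 _ _)))
  · intro t
    exact (coordT_continuous p t.1).continuousOn.congr (fun y hy => coord_eq h t.2 hy)

end Coord

end Pool.Agent.Helper66.AF
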